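import Mathlib

/-!
# W5/Q/QDefs: quartic characters and the symbol `mu` (fixed file)
-/

set_option autoImplicit false

namespace Pool.Agent.Work.MP_8efaaa_nt.W5

/-- the unit `I` of the Gaussian integers -/
def gI : GaussianInt := ⟨0, 1⟩

/-- `χ` is a quartic character modulo the prime `p` with values in the Gaussian integers -/
structure Quart (p : ℕ) (χ : MulChar (ZMod p) GaussianInt) : Prop where
  four : χ ^ 4 = 1
  two : χ ^ 2 ≠ 1

/-- the symbol `χ(N) θ(N) I ^ ((N - 1) / 2) (t / N)` -/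
def mu {p q : ℕ} (χ : MulChar (ZMod p) GaussianInt) (θ : MulChar (ZMod q) GaussianInt)
    (N : ℕ) (t : ℤ) : GaussianInt :=
  χ (N : ZMod p) * θ (N : ZMod q) * gI ^ ((N - 1) / 2) * (jacobiSym t N : ℤ)

end Pool.Agent.Work.MP_8efaaa_nt.W5
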