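import Mathlib
import Pool.Agent.Work.MP_8efaaa_nt.W5.Q.QDefs

/-!
# W5/Q/QOne (S-M): quartic characters

PROOF. `exists_quart`: the group `(ZMod p)ˣ` is cyclic of order `p - 1`, divisible by `4`: `MulChar.exists_mulChar_orderOf` (Mathlib, for a field with a
primitive fourth root of unity in the target ring: `IsPrimitiveRoot gI 4`), of order `4`.
`norm_jac`: `jacobiSum_mul_jacobiSum_inv` is stated for a target FIELD: map to `ℂ` (or any field containing `GaussianInt`, characteristic `0`; `GaussianInt.toComplex`, injective,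
`jacobiSum_ringHomComp`), `χ⁻¹ = star χ` on values (values are `0` or fourth roots of unity), so `J(χ⁻¹, χ⁻¹) = star J(χ, χ)` and `J * star J = p`.
`quart_sq`: `χ n ^ 2` is `1` if `n` is a square modulo `p` (`n = m ^ 2`, `χ n ^ 2 = χ m ^ 4 = 1`) and `-1` otherwise: there is `x` with `χ x ^ 2 ≠ 1`, so `-1` (its square is `1`),
`x` is not a square, and the nonsquares form one coset: `n x` is a square (`legendreSym.mul`, `legendreSym.eq_one_iff`), so `χ n ^ 2 χ x ^ 2 = 1`.
`quart_val`: `χ n ^ 4 = 1`, so `(χ n - 1) (χ n + 1) (χ n - gI) (χ n + gI) = 0`.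
-/

set_option autoImplicit false

namespace Pool.Agent.Work.MP_8efaaa_nt.W5

private theorem gI_sq : gI ^ 2 = -1 := by decide

private theorem gI_prim : IsPrimitiveRoot gI 4 := by
  apply IsPrimitiveRoot.mk_of_lt gI (by norm_num) (by decide)
  intro l hl hl4
  interval_cases l <;> decide

theorem exists_quart {p : ℕ} [Fact p.Prime] (hp : p % 4 = 1) :
    ∃ χ : MulChar (ZMod p) GaussianInt, Quart p χ := by
  have h4 : 4 ∣ Fintype.card (ZMod p) - 1 := by
    rw [ZMod.card]
    omega
  obtain ⟨χ, hχ⟩ := MulChar.exists_mulChar_orderOf (ZMod p) h4 gI_prim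
  refine ⟨χ, ⟨?_, ?_⟩⟩
  · rw [← hχ, pow_orderOf_eq_one]
  · intro h
    have := orderOf_dvd_of_pow_eq_one h
    rw [hχ] at this
    omega

private theorem quart_pow4 {p : ℕ} [Fact p.Prime] {χ : MulChar (ZMod p) GaussianInt}
    (h : Quart p χ) {n : ZMod p} (hn : n ≠ 0) : χ n ^ 4 = 1 := by
  have h1 : (χ ^ 4) n = (1 : MulChar (ZMod p) GaussianInt) n := by rw [h.four]
  rw [MulChar.pow_apply' χ (by norm_num), MulChar.one_apply hn.isUnit] at h1
  exact h1

theorem quart_val {p : ℕ} [Fact p.Prime] {χ : MulChar (ZMod p) GaussianInt} (h : Quart p χ)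
    {n : ZMod p} (hn : n ≠ 0) : χ n = 1 ∨ χ n = -1 ∨ χ n = gI ∨ χ n = -gI := by
  have h1 := quart_pow4 h hn
  have h2 : (χ n - 1) * ((χ n + 1) * ((χ n - gI) * (χ n + gI))) = 0 := by
    have h3 : (χ n - gI) * (χ n + gI) = χ n ^ 2 - gI ^ 2 := by ring
    rw [h3, gI_sq]
    linear_combination h1
  rcases mul_eq_zero.1 h2 with h3 | h3
  · exact Or.inl (sub_eq_zero.1 h3)
  rcases mul_eq_zero.1 h3 with h4 | h4
  · exact Or.inr (Or.inl (eq_neg_of_add_eq_zero_left h4))
  rcases mul_eq_zero.1 h4 with h5 | h5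
  · exact Or.inr (Or.inr (Or.inl (sub_eq_zero.1 h5)))
  · exact Or.inr (Or.inr (Or.inr (eq_neg_of_add_eq_zero_left h5)))

theorem quart_star {p : ℕ} [Fact p.Prime] {χ : MulChar (ZMod p) GaussianInt} (h : Quart p χ)
    {n : ZMod p} (hn : n ≠ 0) : χ n * star (χ n) = 1 := by
  rcases quart_val h hn with h1 | h1 | h1 | h1 <;> rw [h1] <;> decide

private theorem quart_inv {p : ℕ} [Fact p.Prime] {χ : MulChar (ZMod p) GaussianInt}
    (h : Quart p χ) : χ⁻¹ = χ.ringHomComp (starRingEnd GaussianInt) := by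
  apply MulChar.ext'
  intro a
  rw [MulChar.inv_apply', MulChar.ringHomComp_apply, starRingEnd_apply]
  by_cases ha : a = 0
  · rw [ha, inv_zero, MulChar.map_zero, star_zero]
  · have h1 := quart_star h ha
    have h2 : χ a * χ a⁻¹ = 1 := by rw [← map_mul, mul_inv_cancel₀ ha, map_one]
    have h3 : χ a ≠ 0 := by
      intro h4
      rw [h4, zero_mul] at h1
      exact zero_ne_one h1
    exact mul_left_cancel₀ h3 (h2.trans h1.symm)

theorem norm_jac {p : ℕ} [Fact p.Prime] {χ : MulChar (ZMod p) GaussianInt} (h : Quart p χ) :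
    jacobiSum χ χ * star (jacobiSum χ χ) = (p : GaussianInt) := by
  have hinj : Function.Injective GaussianInt.toComplex := by
    intro x y hxy
    exact GaussianInt.toComplex_inj.1 hxy
  have h2 : χ * χ ≠ 1 := by
    rw [← sq]
    exact h.two
  have h1 : χ ≠ 1 := by
    rintro rfl
    exact h2 (one_mul 1)
  have e1 : χ.ringHomComp GaussianInt.toComplex ≠ 1 :=
    (MulChar.ringHomComp_ne_one_iff hinj).2 h1
  have e2 : χ.ringHomComp GaussianInt.toComplex * χ.ringHomComp GaussianInt.toComplex ≠ 1 := by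
    rw [← MulChar.ringHomComp_mul]
    exact (MulChar.ringHomComp_ne_one_iff hinj).2 h2
  have hchar : ringChar ℂ ≠ ringChar (ZMod p) := by
    rw [ringChar.eq_zero, ZMod.ringChar_zmod_n]
    exact (Fact.out : p.Prime).ne_zero.symm
  have h3 := jacobiSum_mul_jacobiSum_inv hchar e1 e1 e2
  rw [MulChar.ringHomComp_inv, jacobiSum_ringHomComp, jacobiSum_ringHomComp, ← map_mul,
    ZMod.card] at h3
  have h4 : jacobiSum χ χ * jacobiSum χ⁻¹ χ⁻¹ = (p : GaussianInt) := by
    apply hinj
    rw [h3, map_natCast]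
  rw [quart_inv h, jacobiSum_ringHomComp, starRingEnd_apply] at h4
  exact h4

theorem quart_sq {p : ℕ} [Fact p.Prime] {χ : MulChar (ZMod p) GaussianInt} (h : Quart p χ)
    (n : ℤ) : χ (n : ZMod p) ^ 2 = (legendreSym p n : ℤ) := by
  have hsq : ∀ m : ZMod p, m ≠ 0 → IsSquare m → χ m ^ 2 = 1 := by
    rintro m hm ⟨y, rfl⟩
    have hy : y ≠ 0 := by
      rintro rfl
      exact hm (mul_zero 0)
    rw [map_mul]
    have := quart_pow4 h hy
    linear_combination this
  by_cases hn : (n : ZMod p) = 0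
  · rw [hn, MulChar.map_zero, (legendreSym.eq_zero_iff p n).2 hn]
    simp
  by_cases hs : IsSquare (n : ZMod p)
  · rw [hsq _ hn hs, (legendreSym.eq_one_iff p hn).2 hs]
    simp
  · obtain ⟨x, hx⟩ : ∃ x : ZMod p, x ≠ 0 ∧ χ x ^ 2 ≠ 1 := by
      by_contra hcon
      push Not at hcon
      apply h.two
      apply MulChar.ext
      intro a
      rw [MulChar.pow_apply_coe, MulChar.one_apply_coe]
      exact hcon a (Units.ne_zero a)
    have hxs : ¬ IsSquare x := fun hh => hx.2 (hsq x hx.1 hh)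
    have hx2 : χ x ^ 2 = -1 := by
      have h1 := quart_pow4 h hx.1
      have h2 : (χ x ^ 2 - 1) * (χ x ^ 2 + 1) = 0 := by linear_combination h1
      rcases mul_eq_zero.1 h2 with h3 | h3
      · exact absurd (sub_eq_zero.1 h3) hx.2
      · exact eq_neg_of_add_eq_zero_left h3
    have hnx : IsSquare ((n : ZMod p) * x) := by
      obtain ⟨z, hz⟩ : ∃ z : ℤ, (z : ZMod p) = x := ⟨(x.val : ℤ), by simp⟩
      have hz0 : (z : ZMod p) ≠ 0 := by rw [hz]; exact hx.1
      have h1 : legendreSym p n = -1 := (legendreSym.eq_neg_one_iff p).2 hs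
      have h2 : legendreSym p z = -1 := (legendreSym.eq_neg_one_iff p).2 (by rw [hz]; exact hxs)
      have h3 : legendreSym p (n * z) = 1 := by rw [legendreSym.mul, h1, h2]; norm_num
      have h4 : ((n * z : ℤ) : ZMod p) ≠ 0 := by
        push_cast
        exact mul_ne_zero hn hz0
      have h5 := (legendreSym.eq_one_iff p h4).1 h3
      push_cast at h5
      rw [hz] at h5
      exact h5
    have h6 := hsq _ (mul_ne_zero hn hx.1) hnx
    rw [map_mul, mul_pow, hx2, mul_neg, mul_one] at h6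
    rw [(legendreSym.eq_neg_one_iff p).2 hs]
    push_cast
    rw [← neg_neg (χ (n : ZMod p) ^ 2), h6]

end Pool.Agent.Work.MP_8efaaa_nt.W5
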