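import Mathlib
import Pool.Agent.Work.MP_8efaaa_nt.W5.Q.QDefs
import Pool.Agent.Work.MP_8efaaa_nt.W5.Q.QOne

/-!
# W5/Q/QFour (M): the quartic character at a prime which divides its Jacobi sum

PROOF. Put `q = 4 m + 1`, `θ' = θ.ringHomComp g : MulChar (ZMod q) k`. Let `x0` be a generator of `(ZMod q)ˣ`. `y = θ'(x0)` satisfies `y ^ 4 = 1`, and `z = x0 ^ m` (in `ZMod q`, mapped to `k` by
`ZMod.castHom`) is a primitive fourth root of unity in `k`, so `y = z ^ j`, `j ∈ {0,1,2,3}`, and `j` is odd since `θ' ^ 2 ≠ 1` (`θ(x0)^2 = (x0/q) = -1` by `quart_sq`). So `θ'(x) = x ^ m` for all `x`, or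
`θ'(x) = x ^ (3 m)` for all `x`. Suppose the second: then `g(J(θ,θ)) = J(θ', θ')` (`jacobiSum_ringHomComp`) `= ∑ x ^ (3m) (1 - x) ^ (3m)` (sum over `ZMod q`, mapped to `k`), computed in `ZMod q`:
`= ∑_j C(3m, j) (-1)^j ∑_x x ^ (3m + j)`, `0 ≤ j ≤ 3m`, and `∑_x x^e` is `0` unless `q - 1 = 4m` divides `e > 0` (`FiniteField.sum_pow_lt_card_sub_one`, `FiniteField.sum_pow_units`,
`X ↦ X + 0`-term), `3m + j ≤ 6m < 8m`, so only `j = m` remains: `= - (-1)^m C(3m, m)`, which is not `0` in `k` because `3m < q` (`Nat.Prime.dvd_choose`-type lemma: `q ∤ (3m)!`).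
Contradiction with `g (J(θ, θ)) = 0`.
`one_add_I`: `(1 + i)^2 = 2 i`, so `(1 + i)^((q-1)/2) = (2 i)^m = 2^m i^m = g(θ(2)) i^m`.
-/

set_option autoImplicit false

namespace Pool.Agent.Work.MP_8efaaa_nt.W5

/-- power sums over `ZMod q` with a positive exponent -/
private theorem sum_pow_pos {q : ℕ} [Fact q.Prime] {e : ℕ} (he : 0 < e) :
    ∑ x : ZMod q, x ^ e = if q - 1 ∣ e then -1 else 0 := by
  classical
  have h1 := FiniteField.sum_pow_units (ZMod q) e
  rw [ZMod.card] at h1
  rw [← h1]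
  have h2 : ∑ x : ZMod q, x ^ e = ∑ x ∈ (Finset.univ \ {0} : Finset (ZMod q)), x ^ e := by
    rw [← Finset.sum_sdiff (Finset.subset_univ ({0} : Finset (ZMod q))), Finset.sum_singleton,
      zero_pow he.ne', add_zero]
  rw [h2]
  let φ : (ZMod q)ˣ ↪ ZMod q := ⟨fun x => x, Units.val_injective⟩
  have h3 : Finset.univ.map φ = (Finset.univ \ {0} : Finset (ZMod q)) := by
    ext x
    simp only [Finset.mem_map, Finset.mem_univ, Function.Embedding.coeFn_mk, true_and,
      Finset.mem_sdiff, Finset.mem_singleton, φ]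
    exact ⟨fun ⟨a, ha⟩ => ha ▸ a.ne_zero, fun h => ⟨Units.mk0 x h, rfl⟩⟩
  rw [← h3, Finset.sum_map]
  simp [φ]

private theorem sum_ne {q m : ℕ} [Fact q.Prime] (hm : q = 4 * m + 1) (hm0 : 0 < m) :
    ∑ x : ZMod q, x ^ (3 * m) * (1 - x) ^ (3 * m) ≠ 0 := by
  have h1 : ∀ x : ZMod q, x ^ (3 * m) * (1 - x) ^ (3 * m) =
      ∑ j ∈ Finset.range (3 * m + 1), (-1) ^ j * ((3 * m).choose j : ZMod q) * x ^ (3 * m + j) := by
    intro x
    rw [sub_eq_add_neg, add_comm, add_pow, Finset.mul_sum]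
    refine Finset.sum_congr rfl fun j _ => ?_
    rw [one_pow, mul_one, neg_pow, pow_add]
    ring
  simp_rw [h1]
  rw [Finset.sum_comm]
  have h2 : ∀ j ∈ Finset.range (3 * m + 1),
      ∑ x : ZMod q, (-1) ^ j * ((3 * m).choose j : ZMod q) * x ^ (3 * m + j) =
        if j = m then -((-1) ^ m * ((3 * m).choose m : ZMod q)) else 0 := by
    intro j hj
    rw [← Finset.mul_sum, sum_pow_pos (by omega)]
    have hj' : j < 3 * m + 1 := Finset.mem_range.1 hj
    by_cases hjm : j = m
    · subst hjm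
      have : q - 1 ∣ 3 * j + j := ⟨1, by omega⟩
      rw [if_pos this, if_pos rfl]
      ring
    · have : ¬ (q - 1 ∣ 3 * m + j) := by
        rintro ⟨c, hc⟩
        have hq1 : q - 1 = 4 * m := by omega
        rw [hq1] at hc
        rcases Nat.lt_or_ge c 1 with h | h
        · interval_cases c
          omega
        · rcases Nat.lt_or_ge c 2 with h' | h'
          · have : c = 1 := by omega
            subst this
            omega
          · have : 4 * m * 2 ≤ 4 * m * c := Nat.mul_le_mul_left _ h'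
            omega
      rw [if_neg this, if_neg hjm, mul_zero]
  rw [Finset.sum_congr rfl h2, Finset.sum_ite_eq' (Finset.range (3 * m + 1)) m,
    if_pos (Finset.mem_range.2 (by omega))]
  rw [neg_ne_zero]
  refine mul_ne_zero (pow_ne_zero _ (neg_ne_zero.2 one_ne_zero)) ?_
  intro h
  have hd : q ∣ (3 * m).choose m := (ZMod.natCast_eq_zero_iff _ _).1 h
  have h3 := Nat.choose_mul_factorial_mul_factorial (show m ≤ 3 * m by omega)
  have h4 : q ∣ (3 * m).factorial := by
    rw [← h3]
    exact Dvd.dvd.mul_right (Dvd.dvd.mul_right hd _) _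
  have h5 := (Nat.Prime.dvd_factorial (Fact.out : q.Prime)).1 h4
  omega

theorem quart_pow {q : ℕ} [Fact q.Prime] (hq : q % 4 = 1)
    {θ : MulChar (ZMod q) GaussianInt} (hθ : Quart q θ) {k : Type*} [Field k] [CharP k q]
    (g : GaussianInt →+* k) (hg : g (jacobiSum θ θ) = 0) (n : ℤ) :
    g (θ (n : ZMod q)) = (n : k) ^ ((q - 1) / 4) := by
  classical
  have hp : q.Prime := Fact.out
  obtain ⟨m, hm⟩ : ∃ m, q = 4 * m + 1 := ⟨q / 4, by omega⟩
  have hm0 : 0 < m := by
    rcases Nat.eq_zero_or_pos m with h | h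
    · subst h
      have := hp.one_lt
      omega
    · exact h
  have hmq : (q - 1) / 4 = m := by omega
  rw [hmq]
  let ι : ZMod q →+* k := ZMod.castHom (dvd_refl q) k
  have hι : Function.Injective ι := ι.injective
  obtain ⟨u, hu⟩ := IsCyclic.exists_generator (α := (ZMod q)ˣ)
  -- values at the generator
  have h4 : θ (u : ZMod q) ^ 4 = 1 := by
    have h1 : (θ ^ 4) (u : ZMod q) = 1 := by
      rw [hθ.four]
      exact MulChar.one_apply u.isUnit
    rwa [MulChar.pow_apply' θ (by norm_num)] at h1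
  have h2 : θ (u : ZMod q) ^ 2 = -1 := by
    have h5 : (θ (u : ZMod q) ^ 2 - 1) * (θ (u : ZMod q) ^ 2 + 1) = 0 := by
      linear_combination h4
    rcases mul_eq_zero.1 h5 with h | h
    · exfalso
      apply hθ.two
      apply MulChar.ext
      intro a
      obtain ⟨j, hj⟩ := Subgroup.mem_zpowers_iff.1 (hu a)
      rw [MulChar.one_apply_coe, MulChar.pow_apply_coe]
      have h6 : MulChar.equivToUnitHom θ u ^ 2 = 1 := by
        ext1
        rw [Units.val_pow_eq_pow_val, MulChar.coe_equivToUnitHom, sub_eq_zero.1 h, Units.val_one]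
      have h7 : MulChar.equivToUnitHom θ a ^ 2 = 1 := by
        rw [← hj, map_zpow, ← zpow_natCast, ← zpow_mul, mul_comm, zpow_mul, zpow_natCast, h6,
          one_zpow]
      rw [← MulChar.coe_equivToUnitHom, ← Units.val_pow_eq_pow_val, h7, Units.val_one]
    · exact eq_neg_of_add_eq_zero_left h
  set y : k := g (θ (u : ZMod q)) with hy
  have hy2 : y ^ 2 = -1 := by
    rw [hy, ← map_pow, h2, map_neg, map_one]
  set z : k := ι (u : ZMod q) ^ m with hz
  have hu1 : (u : ZMod q) ^ (q - 1) = 1 := ZMod.pow_card_sub_one_eq_one u.ne_zero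
  have hord : orderOf u = q - 1 := by
    rw [orderOf_eq_card_of_forall_mem_zpowers hu, Nat.card_eq_fintype_card,
      ZMod.card_units_eq_totient, Nat.totient_prime hp]
  have hz2 : z ^ 2 = -1 := by
    have h5 : ((u : ZMod q) ^ (2 * m) - 1) * ((u : ZMod q) ^ (2 * m) + 1) = 0 := by
      have h6 : (u : ZMod q) ^ (2 * m) * (u : ZMod q) ^ (2 * m) = 1 := by
        rw [← pow_add, ← hu1]
        congr 1
        omega
      linear_combination h6
    have h7 : (u : ZMod q) ^ (2 * m) = -1 := by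
      rcases mul_eq_zero.1 h5 with h | h
      · exfalso
        have h8 : u ^ (2 * m) = 1 := by
          ext1
          rw [Units.val_pow_eq_pow_val, Units.val_one]
          exact sub_eq_zero.1 h
        have h9 := orderOf_dvd_of_pow_eq_one h8
        rw [hord] at h9
        have := Nat.le_of_dvd (by omega) h9
        omega
      · exact eq_neg_of_add_eq_zero_left h
    rw [hz, ← pow_mul, mul_comm, ← map_pow, h7, map_neg, map_one]
  have hall : ∀ (r : ℕ), 0 < r → y = ι (u : ZMod q) ^ r → ∀ x : ZMod q, g (θ x) = ι x ^ r := by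
    intro r hr hyr x
    by_cases hx : x = 0
    · subst hx
      rw [MulChar.map_zero, map_zero, map_zero, zero_pow hr.ne']
    · obtain ⟨a, ha⟩ : ∃ a : (ZMod q)ˣ, (a : ZMod q) = x := ⟨Units.mk0 x hx, rfl⟩
      subst ha
      obtain ⟨j, hj⟩ := (mem_powers_iff_mem_zpowers.2 (hu a))
      have hj' : a = u ^ j := hj.symm
      rw [hj', Units.val_pow_eq_pow_val, map_pow, map_pow, ← hy, hyr, map_pow, ← pow_mul, ← pow_mul,
        mul_comm]
  have hyz : y = z ∨ y = -z := by
    have h5 : (y - z) * (y + z) = 0 := by linear_combination hy2 - hz2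
    rcases mul_eq_zero.1 h5 with h | h
    · exact Or.inl (sub_eq_zero.1 h)
    · exact Or.inr (eq_neg_of_add_eq_zero_left h)
  rcases hyz with h | h
  · have := hall m hm0 (by rw [h, hz]) (n : ZMod q)
    rw [this]
    simp [ι]
  · exfalso
    have h3m : y = ι (u : ZMod q) ^ (3 * m) := by
      have h5 : ι (u : ZMod q) ^ (3 * m) = z ^ 3 := by
        rw [hz, ← pow_mul, mul_comm]
      rw [h5, h]
      linear_combination (-z) * hz2
    have hx := hall (3 * m) (by omega) h3m
    have h6 : g (jacobiSum θ θ) = ι (∑ x : ZMod q, x ^ (3 * m) * (1 - x) ^ (3 * m)) := by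
      rw [jacobiSum, map_sum, map_sum]
      refine Finset.sum_congr rfl fun x _ => ?_
      rw [map_mul, map_mul, hx, hx, map_pow, map_pow]
    rw [h6] at hg
    exact sum_ne hm hm0 ((map_eq_zero_iff ι hι).1 hg)

theorem one_add_I {q : ℕ} [Fact q.Prime] (hq : q % 4 = 1)
    {θ : MulChar (ZMod q) GaussianInt} (hθ : Quart q θ) {k : Type*} [Field k] [CharP k q]
    (g : GaussianInt →+* k) (hg : g (jacobiSum θ θ) = 0) :
    (1 + g gI) ^ ((q - 1) / 2) = g (θ 2) * g gI ^ ((q - 1) / 4) := by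
  have h1 := quart_pow hq hθ g hg 2
  have h2 : ((2 : ℤ) : ZMod q) = 2 := by norm_num
  have h3 : ((2 : ℤ) : k) = 2 := by norm_num
  rw [h2, h3] at h1
  rw [h1]
  have hI : g gI ^ 2 = -1 := by
    rw [← map_pow, ← map_one g, ← map_neg]
    congr 1
  have h4 : (q - 1) / 2 = 2 * ((q - 1) / 4) := by omega
  rw [h4, pow_mul, ← mul_pow]
  congr 1
  linear_combination hI

end Pool.Agent.Work.MP_8efaaa_nt.W5
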