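import Mathlib

/-!
# W5/Q/QGauss: powers of quartic Gauss sums in characteristic `l`
-/

set_option autoImplicit false

namespace Pool.Agent.Work.MP_8efaaa_nt.W5

/-- the main computation, in a field with a primitive additive character -/
private theorem gauss_aux {k : Type*} [Field k] {l p : ℕ} [Fact l.Prime] [Fact p.Prime]
    [CharP k l] (hlp : l ≠ p) {χ : MulChar (ZMod p) k} (h4 : χ ^ 4 = 1)
    (h2 : χ ^ 2 ≠ 1) {ψ : AddChar (ZMod p) k} (hψ : ψ.IsPrimitive) {g : k}
    (hg : g ^ 2 = (p : k)) :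
    (l % 4 = 1 → χ (l : ZMod p) * (jacobiSum χ χ * g) ^ ((l - 1) / 2) = 1) ∧
    (l % 4 = 3 → (jacobiSum χ χ * g) ^ ((l + 1) / 2) = χ (l : ZMod p) * χ (-1) * (p : k)) := by
  have hpk : (p : k) ≠ 0 := by
    intro h
    have h1 : l ∣ p := (CharP.cast_eq_zero_iff k l p).1 h
    exact hlp ((Nat.prime_dvd_prime_iff_eq Fact.out Fact.out).1 h1)
  have hcard : (Fintype.card (ZMod p) : k) ≠ 0 := by rwa [ZMod.card]
  have hχ : χ ≠ 1 := by
    rintro rfl
    exact h2 (one_pow 2)
  have h22 : χ * χ ≠ 1 := by rwa [← pow_two]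
  have hunit : IsUnit (l : ZMod p) := by
    have h1 : Nat.Coprime l p := (Nat.coprime_primes Fact.out Fact.out).2 hlp
    exact (ZMod.isUnit_iff_coprime l p).2 h1
  set G := gaussSum χ ψ with hG
  have hG0 : G ≠ 0 := gaussSum_ne_zero_of_nontrivial hcard hχ hψ
  have hsqv : ∀ a : ZMod p, IsUnit a → (χ a) ^ 4 = 1 := by
    intro a ha
    have h1 : (χ ^ 4) a = 1 := by
      rw [h4]
      exact MulChar.one_apply ha
    rwa [MulChar.pow_apply' χ (by norm_num) a] at h1
  -- the quadratic character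
  have hquad : (χ * χ).IsQuadratic := by
    intro a
    by_cases ha : IsUnit a
    · have h1 := hsqv a ha
      have h3 : (χ * χ) a = χ a ^ 2 := by rw [MulChar.mul_apply, pow_two]
      rw [h3]
      have h4' : (χ a ^ 2 - 1) * (χ a ^ 2 + 1) = 0 := by linear_combination h1
      rcases mul_eq_zero.1 h4' with h | h
      · exact Or.inr (Or.inl (sub_eq_zero.1 h))
      · exact Or.inr (Or.inr (eq_neg_of_add_eq_zero_left h))
    · exact Or.inl (MulChar.map_nonunit _ ha)
  have hm1 : χ (-1) * χ (-1) = 1 := by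
    rw [← map_mul]
    simp
  have hg2 : gaussSum (χ * χ) ψ ^ 2 = (p : k) := by
    rw [gaussSum_sq h22 hquad hψ, MulChar.mul_apply, hm1, one_mul, ZMod.card]
  have hGG : G ^ 2 = jacobiSum χ χ * gaussSum (χ * χ) ψ := by
    rw [pow_two, hG, ← jacobiSum_mul_nontrivial h22 ψ, mul_comm]
  have hgg : gaussSum (χ * χ) ψ = g ∨ gaussSum (χ * χ) ψ = -g := by
    have h1 : (gaussSum (χ * χ) ψ - g) * (gaussSum (χ * χ) ψ + g) = 0 := by
      linear_combination hg2 - hg
    rcases mul_eq_zero.1 h1 with h | h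
    · exact Or.inl (sub_eq_zero.1 h)
    · exact Or.inr (eq_neg_of_add_eq_zero_left h)
  have hev : ∀ n : ℕ, Even n → (jacobiSum χ χ * g) ^ n = G ^ (2 * n) := by
    intro n hn
    rw [pow_mul, hGG, mul_pow, mul_pow]
    rcases hgg with h | h
    · rw [h]
    · rw [h, hn.neg_pow]
  have hfr := gaussSum_frob l χ ψ
  rw [AddChar.pow_mulShift] at hfr
  constructor
  · intro hl4
    have hp1 : χ ^ l = χ := by
      have h1 : l = 4 * (l / 4) + 1 := by omega
      rw [h1, pow_succ, pow_mul, h4, one_pow, one_mul]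
    rw [hp1] at hfr
    have h1 := gaussSum_mulShift χ ψ hunit.unit
    rw [IsUnit.unit_spec] at h1
    rw [← hfr, ← hG] at h1
    have h3 : (l - 1) / 2 * 2 = l - 1 := by omega
    rw [hev _ (by rw [Nat.even_iff]; omega), mul_comm 2, h3]
    have h5 : G ^ l = G ^ (l - 1) * G := by
      rw [← pow_succ]
      congr 1
      omega
    rw [h5, ← mul_assoc] at h1
    have h6 : (χ (l : ZMod p) * G ^ (l - 1) - 1) * G = 0 := by linear_combination h1
    exact sub_eq_zero.1 ((mul_eq_zero.1 h6).resolve_right hG0)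
  · intro hl4
    have hp1 : χ ^ l = χ⁻¹ := by
      have h1 : l = 4 * (l / 4) + 3 := by omega
      rw [h1, pow_add, pow_mul, h4, one_pow, one_mul]
      refine (inv_eq_of_mul_eq_one_right ?_).symm
      rw [← pow_succ', h4]
    rw [hp1] at hfr
    have h1 := gaussSum_mulShift χ⁻¹ ψ hunit.unit
    rw [IsUnit.unit_spec] at h1
    rw [← hfr, ← hG] at h1
    -- h1 : χ⁻¹ l * G ^ l = gaussSum χ⁻¹ ψ
    have h7 := gaussSum_mul_gaussSum_eq_card hχ hψ
    have h8 := mul_gaussSum_inv_eq_gaussSum χ⁻¹ ψ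
    have h9 : χ⁻¹ (-1) = χ (-1) := by
      rw [MulChar.inv_apply_eq_inv']
      exact inv_eq_of_mul_eq_one_right hm1
    rw [h9] at h8
    rw [ZMod.card] at h7
    have h10 : G * gaussSum χ⁻¹ ψ = χ (-1) * (p : k) := by
      rw [← h8, ← h7]
      ring
    have h11 : χ (l : ZMod p) * χ⁻¹ (l : ZMod p) = 1 := by
      rw [← MulChar.mul_apply, mul_inv_cancel]
      exact MulChar.one_apply hunit
    rw [← h1] at h10
    have h3 : 2 * ((l + 1) / 2) = l + 1 := by omega
    rw [hev _ (by rw [Nat.even_iff]; omega), h3]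
    calc G ^ (l + 1) = (χ (l : ZMod p) * χ⁻¹ (l : ZMod p)) * G ^ (l + 1) := by rw [h11, one_mul]
      _ = χ (l : ZMod p) * (G * (χ⁻¹ (l : ZMod p) * G ^ l)) := by ring
      _ = _ := by rw [h10]; ring

/-- Powers of a quartic Jacobi sum times a square root of `p` in characteristic `l`. -/
theorem gauss_pow {k : Type*} [Field k] {l p : ℕ} [Fact l.Prime] [Fact p.Prime]
    [CharP k l] (hlp : l ≠ p) {χ : MulChar (ZMod p) k} (h4 : χ ^ 4 = 1)
    (h2 : χ ^ 2 ≠ 1) {g : k} (hg : g ^ 2 = (p : k)) :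
    (l % 4 = 1 → χ (l : ZMod p) * (jacobiSum χ χ * g) ^ ((l - 1) / 2) = 1) ∧
    (l % 4 = 3 → (jacobiSum χ χ * g) ^ ((l + 1) / 2) = χ (l : ZMod p) * χ (-1) * (p : k)) := by
  have hpk : (p : k) ≠ 0 := by
    intro h
    have h1 : l ∣ p := (CharP.cast_eq_zero_iff k l p).1 h
    exact hlp ((Nat.prime_dvd_prime_iff_eq Fact.out Fact.out).1 h1)
  let e : k →+* AlgebraicClosure k := algebraMap k (AlgebraicClosure k)
  have he : Function.Injective e := (algebraMap k (AlgebraicClosure k)).injective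
  have : CharP (AlgebraicClosure k) l := charP_of_injective_algebraMap he l
  have : NeZero (p : k) := ⟨hpk⟩
  have : NeZero (p : AlgebraicClosure k) := ⟨by
    rw [← map_natCast e]
    exact (map_ne_zero e).2 hpk⟩
  obtain ⟨ζ, hζ⟩ := HasEnoughRootsOfUnity.exists_primitiveRoot (AlgebraicClosure k) p
  have : NeZero p := ⟨(Fact.out : p.Prime).ne_zero⟩
  have hψ := AddChar.zmodChar_primitive_of_primitive_root p hζ
  have hinj : ∀ χ1 χ2 : MulChar (ZMod p) k, χ1.ringHomComp e = χ2.ringHomComp e → χ1 = χ2 :=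
    fun χ1 χ2 h => MulChar.injective_ringHomComp he h
  have hpow : ∀ n : ℕ, (χ.ringHomComp e) ^ n = (χ ^ n).ringHomComp e := by
    intro n
    rw [MulChar.ringHomComp_pow]
  have k4 : (χ.ringHomComp e) ^ 4 = 1 := by
    rw [hpow, h4, MulChar.ringHomComp_one]
  have k2 : (χ.ringHomComp e) ^ 2 ≠ 1 := by
    rw [hpow]
    intro h
    exact h2 (hinj _ _ (by rw [h, MulChar.ringHomComp_one]))
  have kg : (e g) ^ 2 = (p : AlgebraicClosure k) := by
    rw [← map_pow, hg, map_natCast]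
  have hmain := gauss_aux hlp k4 k2 hψ kg
  rw [jacobiSum_ringHomComp] at hmain
  simp only [MulChar.ringHomComp_apply] at hmain
  refine ⟨fun h => ?_, fun h => ?_⟩
  · apply he
    have := hmain.1 h
    rw [map_mul, map_pow, map_mul, map_one]
    exact this
  · apply he
    have := hmain.2 h
    rw [map_mul, map_mul, map_pow, map_mul, map_natCast e p]
    exact this

end Pool.Agent.Work.MP_8efaaa_nt.W5
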