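import Mathlib

/-!
# W5/Q/QSeven (M): the Frobenius of a point of order eight over a finite field

`k` a field of characteristic `q = 5` modulo `8`, `i^2 = -1`. PROOF. All in an algebraic closure or directly in `k`. Put `w = v^2`, `w^2 + 2 e w - 1 = 0`, `e = ±1`, `w = -e ± r`, so `r := w + e` satisfies `r^2 = 2`.
`r^q = r^(q-1) r = 2^((q-1)/2) r = -r` (`2` is not a square modulo `q`: `ZMod.exists_sq_eq_two_iff`, Euler; in `k`: `FiniteField.two_pow_card` or `legendreSym.eq_pow`, `(2/q) = -1`).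
(1) `v^(q+1) = w^((q+1)/2)`. `w = -e (1 + r')`, `r' = -e r`, `r'^2 = 2`, `r'^q = -r'`. Claim `(1 + r')^((q+1)/2) = - i s`. In an algebraic closure let `α^2 = 1 + i`, `β^2 = 1 - i` with `α β = r'` (`(αβ)^2 = 2`, choose the
sign of `β`). `(α + β)^2 = 2 + 2 r'`. `α^q = (1+i)^((q-1)/2) α = s α`, `β^q = (r'/α)^q = -r'/(s α) = -s β`. So `(2 (1+r'))^((q+1)/2) = (α+β)^(q+1) = s (α - β)(α + β) = s ((1+i) - (1-i)) = 2 i s`, and
`2^((q+1)/2) = 2 * 2^((q-1)/2) = -2`. So `(1+r')^((q+1)/2) = -i s`. And `(-e)^((q+1)/2) = -e` (`(q+1)/2` is odd). So `v^(q+1) = e i s`.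
(2) `u' = u^q`: `u^2 = 1 - w^2 = 2 e w`; `v' = v^q`. With `σ = e s`: `v' = σ i / v`. `u' = ?`: `u'^2 = 1 - v'^4 = 1 - 1/w^2 = (w^2 - 1)/w^2 = -2 e w / w^2 = -2e/w`; `(u u')^2 = -4`; the sign: `u^(q+1) = (u^2)^((q+1)/2) = (2 e w)^((q+1)/2)
= -2 e w^((q+1)/2) = -2 e v^(q+1) = -2 e (e i s) = -2 i s`. So `u' = -2 i s / u`.
(3) `x = -i (1 + u)/v^2`, `y = -(1+i)(1+u)/v^3`, `x' = -i (1 + u')/v'^2 = i (1 + u') v^2` (as `v'^2 = -1/v^2`), `y' = -(1+i)(1+u')/v'^3`, `v'^3 = (σ i)^3/v^3 = -σ i/v^3`, so `y' = (1+i)(1+u') v^3 /(σ i)`.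
To prove: `x ≠ σ`, `x' (x - σ) = 1 + σ x`, `y' (x - σ)^2 = -2 y`. Substitute `u' = -2 i s/u`, `w = v^2 = u^2 e / 2 ...` (`u^2 = 2 e w`, so `w = e u^2 / 2`), `w^2 + 2 e w - 1 = 0` becomes `u^4 + 4 u^2 - 4 = 0`; so everything is a
polynomial identity in `u` modulo `u^4 + 4 u^2 - 4`, for `e, s ∈ {1, -1}` (four cases; `v` appears in `y, y'` only as an odd power, `y = -(1+i)(1+u) v / w^2`, `y' = (1+i)(1+u') v w/(σ i)`: divide by `v`).
`x ≠ σ`: `x = -i(1+u)/w`, `x = σ` gives `1 + u = σ i w`, `= σ i e u^2/2`: with `u^4 + 4u^2 - 4 = 0` the resultant is a power of two times a unit: e.g. `2 (1+u) = ± i u^2`, square: `4 (1+u)^2 = -u^4 = 4 u^2 - 4`, `8 u + 8 = 0`,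
`u = -1`, `u^4 + 4u^2 - 4 = 1 ≠ 0`.
-/

set_option autoImplicit false

namespace Pool.Agent.Work.MP_8efaaa_nt.W5

private theorem q7_two {k : Type*} [Field k] {q : ℕ} [Fact q.Prime] [CharP k q] (hq : q % 8 = 5) :
    (2 : k) ≠ 0 := by
  intro h
  have h1 : ((2 : ℕ) : k) = 0 := by exact_mod_cast h
  rw [CharP.cast_eq_zero_iff k q] at h1
  have := Nat.le_of_dvd (by norm_num) h1
  omega

private theorem q7_two_pow {k : Type*} [Field k] {q : ℕ} [Fact q.Prime] [CharP k q]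
    (hq : q % 8 = 5) : (2 : k) ^ ((q - 1) / 2) = -1 := by
  have h1 := legendreSym.eq_pow q 2
  have h2 : legendreSym q 2 = -1 := by
    rw [legendreSym.at_two (by omega), ZMod.χ₈_nat_eq_if_mod_eight]
    have h3 : ¬ q % 2 = 0 := by omega
    have h4 : ¬ (q % 8 = 1 ∨ q % 8 = 7) := by omega
    rw [if_neg h3, if_neg h4]
  rw [h2] at h1
  have h5 : q / 2 = (q - 1) / 2 := by omega
  rw [h5] at h1
  have h6 := congrArg (ZMod.castHom (dvd_refl q) k) h1
  rw [map_pow, map_intCast, map_intCast] at h6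
  push_cast at h6
  exact h6.symm

/-- the number `w ^ ((q + 1) / 2)` -/
private theorem q7_w {k : Type*} [Field k] {q : ℕ} [Fact q.Prime] [CharP k q] (hq : q % 8 = 5)
    {i w e s α : k} (hi : i ^ 2 = -1) (he : e = 1 ∨ e = -1) (hw : w ^ 2 + 2 * e * w - 1 = 0)
    (hs : s = 1 ∨ s = -1) (h1 : (1 + i) ^ ((q - 1) / 2) = s) (hα : α ^ 2 = 1 + i) :
    w ^ ((q + 1) / 2) = e * s * i := by
  have h2 : (2 : k) ≠ 0 := q7_two (q := q) hq
  have h2p : (2 : k) ^ ((q - 1) / 2) = -1 := q7_two_pow hq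
  have he2 : e ^ 2 = 1 := by rcases he with h | h <;> rw [h] <;> norm_num
  have hs2 : s ^ 2 = 1 := by rcases hs with h | h <;> rw [h] <;> norm_num
  have hii : (1 + i) * (1 - i) = 2 := by linear_combination -hi
  have h1i : (1 + i) ≠ 0 := by
    intro h
    rw [h, zero_mul] at hii
    exact h2 hii.symm
  have hα0 : α ≠ 0 := by
    rintro rfl
    apply h1i
    rw [← hα]
    ring
  have hs0 : s ≠ 0 := by
    rintro rfl
    norm_num at hs2
  obtain ⟨r, hr⟩ : ∃ r : k, r = -e * (w + e) := ⟨_, rfl⟩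
  have hr2 : r ^ 2 = 2 := by
    rw [hr]
    linear_combination ((w + e) ^ 2 + 1) * he2 + hw
  have hwr : w = -e * (1 + r) := by
    rw [hr]
    linear_combination -(w + e) * he2
  obtain ⟨β, hβ⟩ : ∃ β : k, β = r / α := ⟨_, rfl⟩
  have hαβ : α * β = r := by
    rw [hβ]
    field_simp
  have hβ2 : β ^ 2 = 1 - i := by
    apply mul_left_cancel₀ h1i
    rw [hii, ← hα, ← hr2, ← hαβ]
    ring
  have hqe : q = 2 * ((q - 1) / 2) + 1 := by omega
  have hαq : α ^ q = s * α := by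
    calc α ^ q = α ^ (2 * ((q - 1) / 2) + 1) := by rw [← hqe]
      _ = s * α := by rw [pow_succ, pow_mul, hα, h1]
  have hrq : r ^ q = -r := by
    calc r ^ q = r ^ (2 * ((q - 1) / 2) + 1) := by rw [← hqe]
      _ = -r := by rw [pow_succ, pow_mul, hr2, h2p]; ring
  have hβq : β ^ q = -s * β := by
    have hc : r / α * α = r := div_mul_cancel₀ _ hα0
    rw [hβ, div_pow, hαq, hrq, div_eq_iff (mul_ne_zero hs0 hα0)]
    linear_combination s ^ 2 * hc + r * hs2
  have hab : (α + β) ^ q = s * (α - β) := by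
    rw [add_pow_char, hαq, hβq]
    ring
  have hsq : (α + β) ^ 2 = 2 * (1 + r) := by
    linear_combination hα + hβ2 + 2 * hαβ
  have hq1 : q + 1 = 2 * ((q + 1) / 2) := by omega
  have hbig : (2 * (1 + r)) ^ ((q + 1) / 2) = 2 * i * s := by
    rw [← hsq, ← pow_mul, ← hq1, pow_succ, hab]
    linear_combination s * hα - s * hβ2
  have hq2 : (q + 1) / 2 = (q - 1) / 2 + 1 := by omega
  have h2q : (2 : k) ^ ((q + 1) / 2) = -2 := by
    rw [hq2, pow_succ, h2p]
    ring
  rw [mul_pow, h2q] at hbig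
  have h1r : (1 + r) ^ ((q + 1) / 2) = -i * s := by
    apply mul_left_cancel₀ h2
    linear_combination -hbig
  have hq3 : (q + 1) / 2 = 2 * ((q - 1) / 4) + 1 := by omega
  have hee : (-e) ^ ((q + 1) / 2) = -e := by
    rw [hq3, pow_succ, pow_mul, neg_sq, he2, one_pow, one_mul]
  rw [hwr, mul_pow, hee, h1r]
  ring

theorem frob_point {k : Type*} [Field k] {q : ℕ} [Fact q.Prime] [CharP k q] (hq : q % 8 = 5)
    {i u v e s : k} (hi : i ^ 2 = -1) (hv : v ≠ 0) (hu : u ^ 2 = 1 - v ^ 4)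
    (he : e = 1 ∨ e = -1) (hw : v ^ 4 + 2 * e * v ^ 2 - 1 = 0)
    (hs : s = 1 ∨ s = -1) (h1 : (1 + i) ^ ((q - 1) / 2) = s) :
    v ^ q * v = e * s * i ∧
    (-i * (1 + u) / v ^ 2 ≠ e * s) ∧
    -i * (1 + u ^ q) / (v ^ q) ^ 2 =
      (1 + e * s * (-i * (1 + u) / v ^ 2)) / (-i * (1 + u) / v ^ 2 - e * s) ∧
    -(1 + i) * (1 + u ^ q) / (v ^ q) ^ 3 =
      -2 * (-(1 + i) * (1 + u) / v ^ 3) / (-i * (1 + u) / v ^ 2 - e * s) ^ 2 := by
  have h2 : (2 : k) ≠ 0 := q7_two (q := q) hq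
  have h2p : (2 : k) ^ ((q - 1) / 2) = -1 := q7_two_pow hq
  have he2 : e ^ 2 = 1 := by rcases he with h | h <;> rw [h] <;> norm_num
  have hs2 : s ^ 2 = 1 := by rcases hs with h | h <;> rw [h] <;> norm_num
  have he0 : e ≠ 0 := by
    rintro rfl
    norm_num at he2
  have hs0 : s ≠ 0 := by
    rintro rfl
    norm_num at hs2
  have hi0 : i ≠ 0 := by
    rintro rfl
    norm_num at hi
  obtain ⟨w, hwv⟩ : ∃ w : k, w = v ^ 2 := ⟨_, rfl⟩
  have hw0 : w ≠ 0 := by rw [hwv]; exact pow_ne_zero 2 hv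
  have hw' : w ^ 2 + 2 * e * w - 1 = 0 := by
    rw [hwv]
    linear_combination hw
  have hu' : u ^ 2 = 2 * e * w := by
    rw [hu, hwv]
    linear_combination -hw
  have hwq : w ^ ((q + 1) / 2) = e * s * i := by
    -- a square root of `1 + i` in an algebraic closure
    obtain ⟨α, hα⟩ := IsAlgClosed.exists_pow_nat_eq (k := AlgebraicClosure k)
      (algebraMap k (AlgebraicClosure k) (1 + i)) (n := 2) (by norm_num)
    have : CharP (AlgebraicClosure k) q :=
      charP_of_injective_algebraMap (algebraMap k (AlgebraicClosure k)).injective q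
    have h := q7_w (k := AlgebraicClosure k) (q := q) hq
      (i := algebraMap k _ i) (w := algebraMap k _ w) (e := algebraMap k _ e)
      (s := algebraMap k _ s) (α := α)
      (by rw [← map_pow, hi, map_neg, map_one])
      (by
        rcases he with h | h
        · left; rw [h, map_one]
        · right; rw [h, map_neg, map_one])
      (by
        have := congrArg (algebraMap k (AlgebraicClosure k)) hw'
        rw [map_sub, map_add, map_pow, map_mul, map_mul, map_one, map_zero, map_ofNat] at this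
        exact this)
      (by
        rcases hs with h | h
        · left; rw [h, map_one]
        · right; rw [h, map_neg, map_one])
      (by
        have := congrArg (algebraMap k (AlgebraicClosure k)) h1
        simpa using this)
      (by rw [hα, map_add, map_one])
    apply (algebraMap k (AlgebraicClosure k)).injective
    rw [map_pow, h, map_mul, map_mul]
  have hq1 : q + 1 = 2 * ((q + 1) / 2) := by omega
  have hV : v ^ q * v = e * s * i := by
    rw [← pow_succ, hq1, pow_mul, ← hwv, hwq]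
  have hu0 : u ≠ 0 := by
    rintro rfl
    have : 2 * e * w = 0 := by rw [← hu']; ring
    exact mul_ne_zero (mul_ne_zero h2 he0) hw0 this
  have hq2 : (q + 1) / 2 = (q - 1) / 2 + 1 := by omega
  have h2q : (2 : k) ^ ((q + 1) / 2) = -2 := by
    rw [hq2, pow_succ, h2p]
    ring
  have hq3 : (q + 1) / 2 = 2 * ((q - 1) / 4) + 1 := by omega
  have hee : e ^ ((q + 1) / 2) = e := by
    rw [hq3, pow_succ, pow_mul, he2, one_pow, one_mul]
  have hU : u ^ q * u = -2 * s * i := by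
    rw [← pow_succ, hq1, pow_mul, hu', mul_pow, mul_pow, h2q, hee, hwq]
    linear_combination (-2 * s * i) * he2
  obtain ⟨U, hUd⟩ : ∃ U : k, U = u ^ q := ⟨_, rfl⟩
  obtain ⟨V, hVd⟩ : ∃ V : k, V = v ^ q := ⟨_, rfl⟩
  rw [← hUd] at hU
  rw [← hVd] at hV
  rw [← hUd, ← hVd]
  have hUu : U = -2 * s * i / u := by
    rw [eq_div_iff hu0]
    exact hU
  have hVv : V = e * s * i / v := by
    rw [eq_div_iff hv]
    exact hV
  have hne : -i * (1 + u) / v ^ 2 ≠ e * s := by
    intro h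
    rw [← hwv, div_eq_iff hw0] at h
    have h3 : u = -1 := by
      apply mul_left_cancel₀ h2
      have h4 : (-i * (1 + u)) ^ 2 = (e * s * w) ^ 2 := by rw [h]
      linear_combination -h4 - hu' - hw' + (1 + u) ^ 2 * hi - s ^ 2 * w ^ 2 * he2 - w ^ 2 * hs2
    rw [h3] at hu'
    have h5 : w ^ 2 = 0 := by linear_combination hw' + hu'
    exact hw0 (pow_eq_zero_iff (by norm_num) |>.1 h5)
  obtain ⟨D, hD⟩ : ∃ D : k, D = -i * (1 + u) - e * s * w := ⟨_, rfl⟩
  have hden : D ≠ 0 := by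
    intro h
    rw [hD] at h
    apply hne
    rw [← hwv, div_eq_iff hw0]
    linear_combination h
  have hV0 : V ≠ 0 := by
    rintro rfl
    rw [zero_mul] at hV
    exact mul_ne_zero (mul_ne_zero he0 hs0) hi0 hV.symm
  have hVw : V ^ 2 * w = -1 := by
    rw [hwv]
    have h3 : (V * v) ^ 2 = (e * s * i) ^ 2 := by rw [hV]
    linear_combination h3 + (e * s) ^ 2 * hi - s ^ 2 * he2 - hs2
  have hx : -i * (1 + u) / v ^ 2 - e * s = D / w := by
    rw [← hwv, eq_div_iff hw0, sub_mul, div_mul_cancel₀ _ hw0, hD]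
  have hD2 : D ^ 2 = -2 * u - 4 * e * w + 2 * i * e * s * w + 2 * i * e * s * u * w := by
    rw [hD]
    linear_combination (1 + u) ^ 2 * hi + s ^ 2 * w ^ 2 * he2 + w ^ 2 * hs2 - hu' + hw'
  have hwD : w * D ^ 2 = -2 * u * w - 4 * e + 8 * w + 2 * i * e * s - 4 * i * s * w +
      2 * i * e * s * u - 4 * i * s * u * w := by
    linear_combination w * hD2 + (8 * w - 4 * i * s * w - 4 * i * s * u * w) * he2 +
      (-4 * e + 2 * i * e * s + 2 * i * e * s * u) * hw'
  have hfin : (u - 2 * s * i) * (w * D ^ 2) = 2 * (1 + u) * e * s * i * u := by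
    linear_combination (u - 2 * s * i) * hwD + (8 * w + 16 * i * s * w) * he2 +
      (-4 * e - 8 * i * e * s) * hw' + (-2 * w - 4 * i * s * w) * hu' +
      (-4 * e + 8 * w - 4 * e * u + 8 * u * w) * (s ^ 2 * hi - hs2)
  refine ⟨hV, hne, ?_, ?_⟩
  · have e1 : -i * (1 + U) / V ^ 2 = (i * u * w + 2 * s * w) / u := by
      rw [div_eq_div_iff (pow_ne_zero 2 hV0) hu0]
      linear_combination -i * hU - (i * u + 2 * s) * hVw + 2 * s * hi
    have e2 : (1 + e * s * (-i * (1 + u) / v ^ 2)) / (-i * (1 + u) / v ^ 2 - e * s) =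
        (w - i * e * s * (1 + u)) / D := by
      rw [hx, ← hwv, div_eq_div_iff (div_ne_zero hden hw0) hden]
      field_simp
      ring
    rw [e1, e2, div_eq_div_iff hu0 hden, hD]
    linear_combination (w + i * e * s) * hu' - u * w * (1 + u) * hi +
      (2 * i * s * u * w + 2 * i * s * w) * he2 - i * e * s * u * hw' - 2 * e * w ^ 2 * hs2
  · have e3 : -(1 + i) * (1 + U) / V ^ 3 = 2 * (1 + i) * (1 + u) * v / D ^ 2 := by
      rw [div_eq_div_iff (pow_ne_zero 3 hV0) (pow_ne_zero 2 hden)]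
      apply mul_left_cancel₀ (mul_ne_zero hu0 hw0)
      linear_combination -(1 + i) * w * D ^ 2 * hU - (1 + i) * hfin -
        2 * (1 + i) * (1 + u) * u * V ^ 2 * w * hV - 2 * (1 + i) * (1 + u) * u * e * s * i * hVw
    have e4 : -2 * (-(1 + i) * (1 + u) / v ^ 3) / (-i * (1 + u) / v ^ 2 - e * s) ^ 2 =
        2 * (1 + i) * (1 + u) * v / D ^ 2 := by
      rw [hx, div_eq_div_iff (pow_ne_zero 2 (div_ne_zero hden hw0)) (pow_ne_zero 2 hden), hwv]
      field_simp
    rw [e3, e4]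

end Pool.Agent.Work.MP_8efaaa_nt.W5
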