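import Mathlib
import Pool.Agent.Work.MP_8efaaa_nt.W5.Q.QDefs
import Pool.Agent.Work.MP_8efaaa_nt.W5.Q.QOne

/-!
# W5/Q/QThree (S): multiplicativity of `mu`

PROOF. `χ(N N') = χ(N) χ(N')`, the same for `θ`; `(t / N N') = (t / N)(t / N')` (`jacobiSym.mul_right`), `(t/N) = (t1/N)` for `t = t1` modulo `N` (`jacobiSym.mod_left`). The power of `I`:
`(N N' - 1)/2 = (N-1)/2 + (N'-1)/2 + (N-1)(N'-1)/2`, and `(N-1)(N'-1)/2 = 2 ((N-1)/2) ((N'-1)/2)`, so `I^((N N'-1)/2) = I^((N-1)/2) I^((N'-1)/2) (-1)^(((N-1)/2) ((N'-1)/2))`.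
-/

set_option autoImplicit false

namespace Pool.Agent.Work.MP_8efaaa_nt.W5

theorem mu_mul {p q : ℕ} {χ : MulChar (ZMod p) GaussianInt} {θ : MulChar (ZMod q) GaussianInt}
    {N N' : ℕ} (hN : Odd N) (hN' : Odd N') {t t1 t2 : ℤ} (h1 : t ≡ t1 [ZMOD N])
    (h2 : t ≡ t2 [ZMOD N']) :
    mu χ θ (N * N') t = mu χ θ N t1 * mu χ θ N' t2 * (-1) ^ (((N - 1) / 2) * ((N' - 1) / 2)) := by
  obtain ⟨a, rfl⟩ := hN
  obtain ⟨b, rfl⟩ := hN'
  have e1 : (2 * a + 1 - 1) / 2 = a := by omega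
  have e2 : (2 * b + 1 - 1) / 2 = b := by omega
  have e3 : ((2 * a + 1) * (2 * b + 1) - 1) / 2 = 2 * (a * b) + a + b := by
    have h3 : (2 * a + 1) * (2 * b + 1) = 2 * (2 * (a * b) + a + b) + 1 := by ring
    rw [h3]
    omega
  have hI : gI ^ 2 = -1 := by
    rw [pow_two]
    ext <;> simp [gI]
  have j1 : jacobiSym t (2 * a + 1) = jacobiSym t1 (2 * a + 1) :=
    jacobiSym.mod_left' h1
  have j2 : jacobiSym t (2 * b + 1) = jacobiSym t2 (2 * b + 1) :=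
    jacobiSym.mod_left' h2
  unfold mu
  rw [e1, e2, e3, jacobiSym.mul_right t (2 * a + 1) (2 * b + 1), j1, j2, pow_add, pow_add,
    pow_mul, hI]
  push_cast
  rw [map_mul, map_mul]
  ring

end Pool.Agent.Work.MP_8efaaa_nt.W5
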