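import Mathlib
import Pool.Agent.Work.MP_8efaaa_nt.W5.Q.QDefs
import Pool.Agent.Work.MP_8efaaa_nt.W5.Q.QGauss
import Pool.Agent.Work.MP_8efaaa_nt.W5.Q.QOne

/-!
# W5/Q/QTwo (M): the Frobenius exponents of `A = J(χ, χ) J(θ, θ)` modulo a prime `l`

`p = 1`, `q = 5` modulo `8`. PROOF. `mu_sq`: `μ ^ 2 = χ(N)^2 θ(N)^2 (-1)^((N-1)/2) (t/N)^2`; `quart_sq`: `χ(N)^2 θ(N)^2 = (N/p)(N/q) = (N / pq)` `= (pq / N)`
(`jacobiSym.quadratic_reciprocity_one_mod_four`, `pq = 1` modulo `4`) `= (-t^2 / N) = (-1 / N) = (-1)^((N-1)/2)` (`pq = -t^2` modulo `N`; `t` is prime to `N` since `pq` is). So `μ ^ 2 = 1`, and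
`GaussianInt` is a domain.
`frob_mu`: work in an algebraic closure `K` of `k` (or in `k` when the roots exist; `gauss_pow` needs `g1 ^ 2 = p`, `g2 ^ 2 = q` in the field: take `K = AlgebraicClosure k`), `χ' = χ.ringHomComp g'`,
`g' : GaussianInt →+* K`. `χ' ^ 4 = 1`; `χ' ^ 2 ≠ 1` since `χ x ^ 2 = -1` for some `x` (`quart_sq` and a nonsquare, or: `χ ^ 2 ≠ 1` gives `x` with `χ x ^ 2 ≠ 1`, its square is `1`, so it is `-1`) and
`-1 ≠ 1` in `K` (`l ≠ 2`). Multiply the two formulas of `gauss_pow`: `(A g1 g2)^((l-1)/2) χ(l) θ(l) = 1` (`l = 1` modulo `4`), `(A g1 g2)^((l+1)/2) = χ(l) θ(l) χ(-1) θ(-1) p q` (`l = 3`).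
`(g1 g2)^2 = p q = - t^2 = (i t)^2`, `i = g I`, so `g1 g2 = ± i t`, and the exponents are even, so `g1 g2` may be replaced by `i t`.
`l = 1`: `A^((l-1)/2) i^((l-1)/2) t^((l-1)/2) χ(l) θ(l) = 1`, `t^((l-1)/2) = (t/l)` in `k` (`legendreSym.eq_pow`, `jacobiSym` of a prime is `legendreSym`), so `A^((l-1)/2) g(μ) = 1` and `μ^2 = 1`.
`l = 3`: `A^((l+1)/2) (i t)^((l+1)/2) = χ(l) θ(l) χ(-1) θ(-1) (-t^2)`, `χ(-1) = 1`, `θ(-1) = -1`: `χ(-1)` for `p = 1` modulo `8`: `-1` is a fourth power modulo `p` (`-1 = x^4` since `8 ∣ p - 1`; or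
`χ(-1) = ±1` as `(-1)^2 = 1`; the generator argument: in the cyclic group of order `p - 1` the element `-1 = g^((p-1)/2)`, `(p-1)/2` divisible by `4`), for `q = 5` modulo `8` `-1` is a square `y^2` and `y`
is not a square (`y^2 = -1`, `y = z^2` would give an element of order `8`), `θ(-1) = θ(y)^2 = (y/q) = -1`.
`(i t)^((l+1)/2) = i^((l-1)/2) i t^((l-1)/2) t`; multiply by the inverse: `A^((l+1)/2) = χ θ(l) t^2 / (i^((l-1)/2) i t^((l-1)/2) t)`, and `1 / i^((l-1)/2) = - i^((l-1)/2)` (exponent odd), `1 / i = - i`,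
`1/(t/l) = (t/l)`: `= χ θ(l) i^((l-1)/2) (t/l) i t = g(μ) i t`.
-/

set_option autoImplicit false

namespace Pool.Agent.Work.MP_8efaaa_nt.W5

open scoped NumberTheorySymbols

private theorem gI_sq : gI ^ 2 = (-1 : GaussianInt) := by
  rw [pow_two]
  ext <;> simp [gI]

private theorem quart_four {p : ℕ} [Fact p.Prime] {χ : MulChar (ZMod p) GaussianInt}
    (hχ : Quart p χ) {n : ZMod p} (hn : n ≠ 0) : χ n ^ 4 = 1 := by
  rw [← MulChar.pow_apply' χ (by norm_num), hχ.four]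
  exact MulChar.one_apply (isUnit_iff_ne_zero.2 hn)

theorem mu_sq {p q : ℕ} [Fact p.Prime] [Fact q.Prime] (hp : p % 4 = 1) (hq : q % 4 = 1)
    {χ : MulChar (ZMod p) GaussianInt} (hχ : Quart p χ) {θ : MulChar (ZMod q) GaussianInt}
    (hθ : Quart q θ) {N : ℕ} (hN : Odd N) (hc : Nat.Coprime N (p * q)) {t : ℤ}
    (ht : (N : ℤ) ∣ t ^ 2 + p * q) : mu χ θ N t = 1 ∨ mu χ θ N t = -1 := by
  have hp0 : NeZero p := ⟨(Fact.out : p.Prime).ne_zero⟩
  have hq0 : NeZero q := ⟨(Fact.out : q.Prime).ne_zero⟩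
  have hN2 : N % 2 = 1 := Nat.odd_iff.1 hN
  rw [← mul_self_eq_one_iff, ← pow_two]
  -- `t` is prime to `N`
  have htN : t.gcd N = 1 := by
    rw [← Int.isCoprime_iff_gcd_eq_one]
    have h1 : IsCoprime (N : ℤ) ((p * q : ℕ) : ℤ) := Nat.isCoprime_iff_coprime.2 hc
    obtain ⟨w, hw⟩ := ht
    have h2 : ((p * q : ℕ) : ℤ) = -(t ^ 2) + N * w := by
      push_cast
      linear_combination hw
    rw [h2] at h1
    have h3 : IsCoprime (N : ℤ) (-(t ^ 2)) := h1.of_add_mul_left_right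
    have h4 : IsCoprime (N : ℤ) (t ^ 2) := (IsCoprime.neg_right_iff _ _).1 h3
    exact (IsCoprime.pow_right_iff (by norm_num)).1 h4 |>.symm
  have hJt := jacobiSym.sq_one htN
  -- the character values
  have hχN : χ (N : ZMod p) ^ 2 = (J((N : ℤ) | p) : ℤ) := by
    have h1 := quart_sq hχ (N : ℤ)
    rw [Int.cast_natCast] at h1
    rw [h1, jacobiSym.legendreSym.to_jacobiSym]
  have hθN : θ (N : ZMod q) ^ 2 = (J((N : ℤ) | q) : ℤ) := by
    have h1 := quart_sq hθ (N : ℤ)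
    rw [Int.cast_natCast] at h1
    rw [h1, jacobiSym.legendreSym.to_jacobiSym]
  have hrec : J((N : ℤ) | p) * J((N : ℤ) | q) = (-1) ^ ((N - 1) / 2) := by
    rw [← jacobiSym.mul_right, ← jacobiSym.quadratic_reciprocity_one_mod_four
      (show p * q % 4 = 1 by rw [Nat.mul_mod, hp, hq]) hN]
    have h1 : J(((p * q : ℕ) : ℤ) | N) = J(-(t ^ 2) | N) := by
      apply jacobiSym.mod_left'
      refine Int.modEq_iff_dvd.2 ?_
      have h2 : -(t ^ 2) - ((p * q : ℕ) : ℤ) = -(t ^ 2 + p * q) := by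
        push_cast
        ring
      rw [h2]
      exact (dvd_neg).2 ht
    rw [h1, jacobiSym.neg _ hN, pow_two, jacobiSym.mul_left, ← pow_two, hJt, mul_one,
      ZMod.χ₄_eq_neg_one_pow hN2]
    congr 1
    omega
  have hI : (gI ^ ((N - 1) / 2)) ^ 2 = (-1 : GaussianInt) ^ ((N - 1) / 2) := by
    rw [← pow_mul, mul_comm, pow_mul, gI_sq]
  unfold mu
  rw [mul_pow, mul_pow, mul_pow, hχN, hθN, hI]
  have h5 : ((J((N : ℤ) | p) : ℤ) : GaussianInt) * ((J((N : ℤ) | q) : ℤ) : GaussianInt) =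
      (-1) ^ ((N - 1) / 2) := by
    rw [← Int.cast_mul, hrec]
    push_cast
    ring
  have h6 : ((J(t | N) : ℤ) : GaussianInt) ^ 2 = 1 := by
    rw [← Int.cast_pow, hJt, Int.cast_one]
  rw [h5, h6, mul_one, ← mul_pow]
  norm_num

theorem neg_one_p {p : ℕ} [Fact p.Prime] (hp : p % 8 = 1)
    {χ : MulChar (ZMod p) GaussianInt} (hχ : Quart p χ) : χ (-1) = 1 := by
  obtain ⟨y, hy⟩ := (ZMod.exists_sq_eq_neg_one_iff (p := p)).2 (by omega)
  obtain ⟨s, hs⟩ := (ZMod.exists_sq_eq_two_iff (p := p) (by rintro rfl; omega)).2 (Or.inl hp)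
  have h2 : (2 : ZMod p) ≠ 0 := by
    intro h
    have h' : ((2 : ℕ) : ZMod p) = 0 := by exact_mod_cast h
    rw [ZMod.natCast_eq_zero_iff] at h'
    have := (Nat.prime_dvd_prime_iff_eq Fact.out Nat.prime_two).1 h'
    omega
  have hs0 : s ≠ 0 := by
    rintro rfl
    apply h2
    rw [hs, mul_zero]
  have h1 : (-1 : ZMod p) = ((1 + y) / s) ^ 4 := by
    rw [div_pow, eq_div_iff (pow_ne_zero _ hs0)]
    have e1 : s ^ 4 = (s * s) * (s * s) := by ring
    have e2 : (1 + y) ^ 4 = (1 + 2 * y + y * y) * (1 + 2 * y + y * y) := by ring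
    rw [e1, e2, ← hs, ← hy]
    linear_combination 4 * hy
  have h3 : (1 + y) / s ≠ 0 := by
    intro h
    rw [h, zero_pow (by norm_num)] at h1
    exact (neg_ne_zero.2 one_ne_zero) h1
  rw [h1, map_pow, quart_four hχ h3]

theorem neg_one_q {q : ℕ} [Fact q.Prime] (hq : q % 8 = 5)
    {θ : MulChar (ZMod q) GaussianInt} (hθ : Quart q θ) : θ (-1) = -1 := by
  obtain ⟨y, hy⟩ := (ZMod.exists_sq_eq_neg_one_iff (p := q)).2 (by omega)
  have hy0 : y ≠ 0 := by
    rintro rfl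
    rw [mul_zero] at hy
    exact (neg_ne_zero.2 one_ne_zero) hy
  have hns : ¬ IsSquare y := by
    rintro ⟨z, hz⟩
    have hz0 : z ≠ 0 := by
      rintro rfl
      apply hy0
      rw [hz, mul_zero]
    have h1 : IsSquare (2 : ZMod q) := by
      refine ⟨(1 + y) / z, ?_⟩
      rw [div_mul_div_comm, eq_div_iff (mul_ne_zero hz0 hz0), ← hz]
      linear_combination hy
    rcases (ZMod.exists_sq_eq_two_iff (p := q) (by rintro rfl; omega)).1 h1 with h | h <;> omega
  have h1 : legendreSym q (y.val : ℤ) = -1 := by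
    rw [legendreSym.eq_neg_one_iff, Int.cast_natCast, ZMod.natCast_zmod_val]
    exact hns
  have h2 := quart_sq hθ (y.val : ℤ)
  rw [h1, Int.cast_natCast, ZMod.natCast_zmod_val] at h2
  rw [hy, map_mul, ← pow_two, h2]
  push_cast
  ring

/-- the image of a quartic character in a field of characteristic different from two -/
private theorem comp_quart {p : ℕ} [Fact p.Prime] {χ : MulChar (ZMod p) GaussianInt}
    (hχ : Quart p χ) {K : Type*} [Field K] (h2 : (2 : K) ≠ 0) (g : GaussianInt →+* K) :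
    (χ.ringHomComp g) ^ 4 = 1 ∧ (χ.ringHomComp g) ^ 2 ≠ 1 := by
  constructor
  · rw [MulChar.ringHomComp_pow, hχ.four, MulChar.ringHomComp_one]
  · obtain ⟨x, hx⟩ := MulChar.ne_one_iff.1 hχ.two
    have hx0 : (x : ZMod p) ≠ 0 := x.ne_zero
    rw [MulChar.pow_apply' χ (by norm_num)] at hx
    have h1 : (χ (x : ZMod p) ^ 2) * (χ (x : ZMod p) ^ 2) = 1 := by
      rw [← pow_add]
      exact quart_four hχ hx0
    have h3 : χ (x : ZMod p) ^ 2 = -1 := (mul_self_eq_one_iff.1 h1).resolve_left hx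
    rw [MulChar.ne_one_iff]
    refine ⟨x, ?_⟩
    rw [MulChar.pow_apply' _ (by norm_num), MulChar.ringHomComp_apply, ← map_pow, h3, map_neg,
      map_one]
    intro h4
    apply h2
    linear_combination -h4

private theorem leg_pow {l : ℕ} [Fact l.Prime] (hl2 : l ≠ 2) {K : Type*} [Field K] [CharP K l]
    (t : ℤ) : ((J(t | l) : ℤ) : K) = (t : K) ^ ((l - 1) / 2) := by
  have h1 := legendreSym.eq_pow l t
  have h2 := congrArg (ZMod.castHom (dvd_refl l) K) h1
  rw [map_intCast, map_pow, map_intCast] at h2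
  have hodd : l % 2 = 1 := ((Fact.out : l.Prime).eq_two_or_odd).resolve_left hl2
  rw [← jacobiSym.legendreSym.to_jacobiSym, h2]
  congr 1
  omega

private theorem frob_aux {p q l : ℕ} [Fact p.Prime] [Fact q.Prime] [Fact l.Prime] (hp : p % 8 = 1)
    (hq : q % 8 = 5) (hlp : l ≠ p) (hlq : l ≠ q) (hl2 : l ≠ 2)
    {χ : MulChar (ZMod p) GaussianInt} (hχ : Quart p χ)
    {θ : MulChar (ZMod q) GaussianInt} (hθ : Quart q θ)
    {K : Type*} [Field K] [IsAlgClosed K] [CharP K l] (g : GaussianInt →+* K) {t : ℤ}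
    (ht : (l : ℤ) ∣ t ^ 2 + p * q) :
    (l % 4 = 1 → g (jacobiSum χ χ * jacobiSum θ θ) ^ ((l - 1) / 2) = g (mu χ θ l t)) ∧
    (l % 4 = 3 → g (jacobiSum χ χ * jacobiSum θ θ) ^ ((l + 1) / 2) =
      g (mu χ θ l t) * g gI * (t : K)) := by
  have hl : l.Prime := Fact.out
  have hodd : l % 2 = 1 := (hl.eq_two_or_odd).resolve_left hl2
  have hk2 : (2 : K) ≠ 0 := by
    intro h
    have h' : ((2 : ℕ) : K) = 0 := by exact_mod_cast h
    rw [CharP.cast_eq_zero_iff K l] at h'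
    exact hl2 ((Nat.prime_dvd_prime_iff_eq hl Nat.prime_two).1 h')
  have hkp : (p : K) ≠ 0 := by
    intro h
    rw [CharP.cast_eq_zero_iff K l] at h
    exact hlp ((Nat.prime_dvd_prime_iff_eq hl Fact.out).1 h)
  have hkq : (q : K) ≠ 0 := by
    intro h
    rw [CharP.cast_eq_zero_iff K l] at h
    exact hlq ((Nat.prime_dvd_prime_iff_eq hl Fact.out).1 h)
  obtain ⟨g1, hg1⟩ := IsAlgClosed.exists_pow_nat_eq (p : K) (n := 2) (by norm_num)
  obtain ⟨g2, hg2⟩ := IsAlgClosed.exists_pow_nat_eq (q : K) (n := 2) (by norm_num)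
  obtain ⟨hχ4, hχ2⟩ := comp_quart hχ hk2 g
  obtain ⟨hθ4, hθ2⟩ := comp_quart hθ hk2 g
  have h1 := gauss_pow hlp hχ4 hχ2 hg1
  have h2 := gauss_pow hlq hθ4 hθ2 hg2
  rw [jacobiSum_ringHomComp, MulChar.ringHomComp_apply, MulChar.ringHomComp_apply] at h1 h2
  rw [neg_one_p hp hχ, map_one, mul_one] at h1
  rw [neg_one_q hq hθ, map_neg, map_one] at h2
  set a : K := g (jacobiSum χ χ) with ha
  set b : K := g (jacobiSum θ θ) with hb
  set c : K := g (χ (l : ZMod p)) with hc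
  set d : K := g (θ (l : ZMod q)) with hd
  set i : K := g gI with hi
  have hi2 : i ^ 2 = -1 := by
    rw [hi, ← map_pow, gI_sq, map_neg, map_one]
  have htk : (t : K) ^ 2 = -((p : K) * q) := by
    have h3 : (((t ^ 2 + p * q : ℤ)) : K) = 0 := (CharP.intCast_eq_zero_iff K l _).2 ht
    push_cast at h3
    linear_combination h3
  have ht0 : (t : K) ≠ 0 := by
    intro h
    rw [h] at htk
    have : (p : K) * q = 0 := by linear_combination htk
    exact mul_ne_zero hkp hkq this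
  have hgg : (g1 * g2) ^ 2 = (i * t) ^ 2 := by
    rw [mul_pow, mul_pow, hg1, hg2, hi2, htk]
    ring
  have hpow : ∀ m : ℕ, Even m → (g1 * g2) ^ m = (i * t) ^ m := by
    rintro m ⟨r, rfl⟩
    rw [← two_mul, pow_mul, pow_mul, hgg]
  have hJ := leg_pow hl2 (K := K) t
  have hmu : g (mu χ θ l t) = c * d * i ^ ((l - 1) / 2) * (t : K) ^ ((l - 1) / 2) := by
    unfold mu
    rw [map_mul, map_mul, map_mul, map_pow, map_intCast, hJ]
  have hmu2 : g (mu χ θ l t) * g (mu χ θ l t) = 1 := by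
    have h3 : Nat.Coprime l (p * q) := by
      apply Nat.Coprime.mul_right
      · exact (Nat.coprime_primes hl Fact.out).2 hlp
      · exact (Nat.coprime_primes hl Fact.out).2 hlq
    rcases mu_sq (by omega) (by omega) hχ hθ (Nat.odd_iff.2 hodd) h3 ht with h | h <;> rw [h]
    · rw [map_one, one_mul]
    · rw [map_neg, map_one]
      ring
  constructor
  · intro h4
    have h3 := h1.1 h4
    have h5 := h2.1 h4
    have hev : Even ((l - 1) / 2) := by
      rw [Nat.even_iff]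
      omega
    have h6 : (a * b) ^ ((l - 1) / 2) * g (mu χ θ l t) = 1 := by
      rw [hmu]
      calc (a * b) ^ ((l - 1) / 2) * (c * d * i ^ ((l - 1) / 2) * (t : K) ^ ((l - 1) / 2))
          = c * d * (a * b) ^ ((l - 1) / 2) * (i * t) ^ ((l - 1) / 2) := by ring
        _ = c * d * (a * b) ^ ((l - 1) / 2) * (g1 * g2) ^ ((l - 1) / 2) := by rw [hpow _ hev]
        _ = (c * (a * g1) ^ ((l - 1) / 2)) * (d * (b * g2) ^ ((l - 1) / 2)) := by ring
        _ = 1 := by rw [h3, h5, one_mul]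
    rw [map_mul]
    calc (a * b) ^ ((l - 1) / 2) = (a * b) ^ ((l - 1) / 2) *
          (g (mu χ θ l t) * g (mu χ θ l t)) := by rw [hmu2, mul_one]
      _ = ((a * b) ^ ((l - 1) / 2) * g (mu χ θ l t)) * g (mu χ θ l t) := by ring
      _ = g (mu χ θ l t) := by rw [h6, one_mul]
  · intro h4
    have h3 := h1.2 h4
    have h5 := h2.2 h4
    have hev : Even ((l + 1) / 2) := by
      rw [Nat.even_iff]
      omega
    have hn : (l + 1) / 2 = (l - 1) / 2 + 1 := by omega
    have hodd2 : ∃ r, (l - 1) / 2 = 2 * r + 1 := ⟨(l - 3) / 4, by omega⟩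
    have hin : (i ^ ((l - 1) / 2)) ^ 2 = -1 := by
      obtain ⟨r, hr⟩ := hodd2
      rw [hr, ← pow_mul, mul_comm, pow_mul, hi2, pow_succ, pow_mul]
      norm_num
    have htn : ((t : K) ^ ((l - 1) / 2)) ^ 2 = 1 := by
      rw [← hJ]
      have h6 : ((t : ZMod l)) ≠ 0 := by
        intro h7
        apply ht0
        have h8 := congrArg (ZMod.castHom (dvd_refl l) K) h7
        rwa [map_intCast, map_zero] at h8
      rw [← jacobiSym.legendreSym.to_jacobiSym]
      rcases legendreSym.eq_one_or_neg_one l h6 with h | h <;> rw [h] <;> norm_num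
    have hi0 : i ≠ 0 := by
      intro h
      rw [h] at hi2
      norm_num at hi2
    have hX : (i * (t : K)) ^ ((l + 1) / 2) ≠ 0 := pow_ne_zero _ (mul_ne_zero hi0 ht0)
    apply mul_right_cancel₀ hX
    have h6 : (a * b) ^ ((l + 1) / 2) * (i * (t : K)) ^ ((l + 1) / 2) = c * d * (t : K) ^ 2 := by
      calc (a * b) ^ ((l + 1) / 2) * (i * (t : K)) ^ ((l + 1) / 2)
          = (a * b) ^ ((l + 1) / 2) * (g1 * g2) ^ ((l + 1) / 2) := by rw [hpow _ hev]
        _ = (a * g1) ^ ((l + 1) / 2) * (b * g2) ^ ((l + 1) / 2) := by ring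
        _ = c * d * (t : K) ^ 2 := by
          rw [h3, h5, htk]
          ring
    rw [map_mul, h6, hmu, hn]
    set u : K := i ^ ((l - 1) / 2) with hu
    set v : K := (t : K) ^ ((l - 1) / 2) with hv
    have h7 : (i * (t : K)) ^ ((l - 1) / 2 + 1) = u * v * (i * t) := by
      rw [pow_succ, mul_pow]
    rw [h7]
    have h8 : c * d * u * v * i * (t : K) * (u * v * (i * t)) =
        c * d * (u ^ 2) * (v ^ 2) * (i ^ 2) * (t : K) ^ 2 := by ring
    rw [h8, hin, htn, hi2]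
    ring

theorem frob_mu {p q l : ℕ} [Fact p.Prime] [Fact q.Prime] [Fact l.Prime] (hp : p % 8 = 1)
    (hq : q % 8 = 5) (hlp : l ≠ p) (hlq : l ≠ q) (hl2 : l ≠ 2)
    {χ : MulChar (ZMod p) GaussianInt} (hχ : Quart p χ)
    {θ : MulChar (ZMod q) GaussianInt} (hθ : Quart q θ)
    {k : Type*} [Field k] [CharP k l] (g : GaussianInt →+* k) {t : ℤ}
    (ht : (l : ℤ) ∣ t ^ 2 + p * q) :
    (l % 4 = 1 → g (jacobiSum χ χ * jacobiSum θ θ) ^ ((l - 1) / 2) = g (mu χ θ l t)) ∧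
    (l % 4 = 3 → g (jacobiSum χ χ * jacobiSum θ θ) ^ ((l + 1) / 2) =
      g (mu χ θ l t) * g gI * (t : k)) := by
  have hinj : Function.Injective (algebraMap k (AlgebraicClosure k)) :=
    (algebraMap k (AlgebraicClosure k)).injective
  have hC : CharP (AlgebraicClosure k) l := charP_of_injective_algebraMap hinj l
  have h1 := frob_aux hp hq hlp hlq hl2 hχ hθ ((algebraMap k (AlgebraicClosure k)).comp g) ht
  constructor
  · intro h4
    apply hinj
    have h2 := h1.1 h4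
    rw [map_pow]
    exact h2
  · intro h4
    apply hinj
    have h2 := h1.2 h4
    rw [map_pow]
    refine h2.trans ?_
    rw [map_mul (algebraMap k (AlgebraicClosure k)), map_mul (algebraMap k (AlgebraicClosure k)),
      map_intCast (algebraMap k (AlgebraicClosure k))]
    rfl

end Pool.Agent.Work.MP_8efaaa_nt.W5
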