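import Mathlib
import Pool.Agent.Work.MP_8efaaa_nt.W5.Q.QDefs
import Pool.Agent.Work.MP_8efaaa_nt.W5.Q.QOne

/-!
# W5/Q/QFive (M): the Jacobi identity and the final formula

`jac_core`. PROOF. `a = p q = 5` modulo `8`; `A, B` odd and coprime, `A^2 + a B^2 = 2 N n^2`, `N = 7` modulo `8`, `n` odd, `N n` prime to `a`.
(1) `(A / a) = (a / |A|)` (reciprocity, `a = 1` modulo `4`, `(-1/a) = 1`). Modulo `|A|`: `a B^2 = 2 N n^2`, and `B`, `n` are prime to `A` (a prime dividing `n` and `A` divides `a B^2`, not `a`, so `B`: excluded), so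
`(a / |A|) = (2 N / |A|)`. (2) `(A / N) = (-1)^((|A|-1)/2) sign(A) (N / |A|)` as `N = 3` modulo `4` and `(-1/N) = -1`; `sign(A) (-1)^((|A|-1)/2)` is `1` for `A = 1` and `-1` for `A = 3` modulo `4` (`A` with its
sign). (3) the same for `B`, and modulo `|B|`: `2 N n^2 = A^2`, `(N/|B|) = (2/|B|)`. (`gcd(A, N) = 1`: a prime dividing both divides `a B^2`.) (4) Hence `(A/a)(A/N)(B/N) (-1)^((A-B)/2) = (2 / |A B|)`, and `(2/|AB|) = 1` iff
`(AB)^2 = 1` modulo `16`. (5) Modulo `16`: `A^2 + a B^2 = 14`, `A^2, B^2 ∈ {1, 9}`: `(2/|AB|) = -(-1)^((a-5)/8)`. (6) `(-1/N) = -1`, so `(A/a) (-AB/N) (-1)^((A-B)/2) = (-1)^((a-5)/8)`.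
`final_mu`. `t B = -A` modulo `N`, so `(t/N) = (-AB/N)` (`t B^2 = -AB`). `χ(2N n^2) = χ(A^2) = (A/p)` (`quart_sq`; `p` divides `a B^2`), the same for `θ`, `χ(n^2) θ(n^2) = (n/p)(n/q) = (n / a) = (a / n) = 1`: so
`χθ(N) χθ(2) = (A/a)`. `μ = χθ(N) I^((N-1)/2) (t/N) = -1`, `I^((N-1)/2) = -I` (`(N-1)/2 = 3` modulo `4`). So `χθ(2) = (A/a) (t/N) I` (multiply `-1 = χθ(N) (-I) (t/N)` by `χθ(2)`), and by the identity
`(-1)^((A-B)/2) χθ(2) = I (-1)^((a-5)/8)`. `χ(2)^2 = (2/p) = 1`. `(-1)^((A-B)/2) θ(2) I^((q-1)/4) = χ(2) I^((q+3)/4) (-1)^((a-5)/8)` and `I^((q+3)/4) = (-1)^((q+3)/8)` (`q + 3` is divisible by `8`),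
`(q+3)/8 + (pq-5)/8 = (p-1)/8 + 1` modulo `2`: with `p = 8u+1`, `q = 8v+5`: `(q+3)/8 = v+1`, `(pq-5)/8 = 8uv + 5u + v`, sum `= 2v + 5u + 8uv + 1 = u + 1` modulo `2`.
-/

set_option autoImplicit false

namespace Pool.Agent.Work.MP_8efaaa_nt.W5

private theorem qf_sgn {A B : ℤ} (hA : Odd A) (hB : Odd B) :
    ((-1 : ℤ)) ^ ((A - B) / 2).natAbs =
      (if A % 4 = 1 then 1 else -1) * (if B % 4 = 1 then 1 else -1) := by
  rw [Int.odd_iff] at hA hB
  by_cases h1 : A % 4 = 1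
  · by_cases h2 : B % 4 = 1
    · rw [if_pos h1, if_pos h2, Even.neg_one_pow]
      · norm_num
      · rw [Int.natAbs_even, Int.even_iff]
        omega
    · rw [if_pos h1, if_neg h2, Odd.neg_one_pow]
      · norm_num
      · rw [Int.natAbs_odd, Int.odd_iff]
        omega
  · by_cases h2 : B % 4 = 1
    · rw [if_neg h1, if_pos h2, Odd.neg_one_pow]
      · norm_num
      · rw [Int.natAbs_odd, Int.odd_iff]
        omega
    · rw [if_neg h1, if_neg h2, Even.neg_one_pow]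
      · norm_num
      · rw [Int.natAbs_even, Int.even_iff]
        omega

private theorem qf_rec {A : ℤ} (hA : Odd A) {N : ℕ} (hN : N % 4 = 3) :
    jacobiSym A N = (if A % 4 = 1 then 1 else -1) * jacobiSym N A.natAbs := by
  have hNo : Odd N := by rw [Nat.odd_iff]; omega
  have hneg : jacobiSym (-1) N = -1 := by
    rw [jacobiSym.at_neg_one hNo]
    exact ZMod.χ₄_nat_three_mod_four hN
  rw [Int.odd_iff] at hA
  have key : ∀ k : ℕ, k % 2 = 1 → jacobiSym (k : ℤ) N =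
      (if (k : ℤ) % 4 = 1 then 1 else -1) * jacobiSym (N : ℤ) k := by
    intro k hk
    have hko : Odd k := by rw [Nat.odd_iff]; omega
    by_cases h1 : k % 4 = 1
    · rw [if_pos (by omega), one_mul]
      exact jacobiSym.quadratic_reciprocity_one_mod_four h1 hNo
    · rw [if_neg (by omega), neg_one_mul]
      exact jacobiSym.quadratic_reciprocity_three_mod_four (by omega) hN
  rcases Int.natAbs_eq A with h | h
  · have hk := key A.natAbs (by omega)
    rw [← h] at hk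
    exact hk
  · have hk := key A.natAbs (by omega)
    have h2 : jacobiSym A N = jacobiSym (-1) N * jacobiSym ((A.natAbs : ℕ) : ℤ) N := by
      rw [← jacobiSym.mul_left, neg_one_mul, ← h]
    rw [h2, hneg, hk]
    by_cases h1 : A % 4 = 1
    · rw [if_pos h1, if_neg (by omega)]
      ring
    · rw [if_neg h1, if_pos (by omega)]
      ring

private theorem qf_sq16 (x : ℕ) (hx : x % 2 = 1) :
    ((x % 8 = 1 ∨ x % 8 = 7) ∧ x ^ 2 % 16 = 1) ∨ ((x % 8 = 3 ∨ x % 8 = 5) ∧ x ^ 2 % 16 = 9) := by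
  have h1 : x = 8 * (x / 8) + x % 8 := (Nat.div_add_mod x 8).symm
  have h2 : x % 8 = 1 ∨ x % 8 = 3 ∨ x % 8 = 5 ∨ x % 8 = 7 := by omega
  have h3 : ∀ r : ℕ, x % 8 = r → x ^ 2 = 16 * (4 * (x / 8) ^ 2 + (x / 8) * r) + r ^ 2 := by
    intro r hr
    conv_lhs => rw [h1, hr]
    ring
  rcases h2 with h | h | h | h
  · left
    refine ⟨Or.inl h, ?_⟩
    rw [h3 1 h]
    omega
  · right
    refine ⟨Or.inl h, ?_⟩
    rw [h3 3 h]
    omega
  · right
    refine ⟨Or.inr h, ?_⟩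
    rw [h3 5 h]
    omega
  · left
    refine ⟨Or.inr h, ?_⟩
    rw [h3 7 h]
    omega

private theorem qf_two {x : ℕ} (hx : x % 2 = 1) :
    (jacobiSym 2 x = 1 ∧ x ^ 2 % 16 = 1) ∨ (jacobiSym 2 x = -1 ∧ x ^ 2 % 16 = 9) := by
  have hxo : Odd x := by rw [Nat.odd_iff]; omega
  rw [jacobiSym.at_two hxo, ZMod.χ₈_nat_eq_if_mod_eight]
  rcases qf_sq16 x hx with ⟨h1, h2⟩ | ⟨h1, h2⟩
  · left
    refine ⟨?_, h2⟩
    rw [if_neg (by omega), if_pos h1]
  · right
    refine ⟨?_, h2⟩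
    rw [if_neg (by omega), if_neg (by omega)]

private theorem qf_gcd {x : ℤ} {k : ℕ} (h : ∀ l : ℕ, l.Prime → (l : ℤ) ∣ x → l ∣ k → False) :
    x.gcd k = 1 := by
  by_contra hne
  obtain ⟨l, hl, hd⟩ := Nat.exists_prime_and_dvd hne
  have h1 : (l : ℤ) ∣ x := (Int.natCast_dvd_natCast.2 hd).trans (Int.gcd_dvd_left x k)
  have h2 : (l : ℤ) ∣ (k : ℤ) := (Int.natCast_dvd_natCast.2 hd).trans (Int.gcd_dvd_right x k)
  exact h l hl h1 (Int.natCast_dvd_natCast.1 h2)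

private theorem qf_gI : gI ^ 2 = -1 := by
  rw [pow_two]
  rfl

theorem jac_core {a N n : ℕ} {A B : ℤ} (ha : a % 8 = 5) (hA : Odd A) (hB : Odd B)
    (hAB : IsCoprime A B) (h : A ^ 2 + a * B ^ 2 = 2 * N * n ^ 2) (hN : N % 8 = 7) (hn : Odd n)
    (hc : Nat.Coprime (N * n) a) :
    jacobiSym A a * jacobiSym (-(A * B)) N * (-1) ^ ((A - B) / 2).natAbs =
      (-1) ^ ((a - 5) / 8) := by
  have hAo := hA
  have hBo := hB
  set α := A.natAbs with hα
  set β := B.natAbs with hβ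
  have hA2 : (A : ℤ) ^ 2 = (α : ℤ) ^ 2 := by rw [hα, Int.natCast_natAbs, sq_abs]
  have hB2 : (B : ℤ) ^ 2 = (β : ℤ) ^ 2 := by rw [hβ, Int.natCast_natAbs, sq_abs]
  have hα1 : α % 2 = 1 := by
    rw [Int.odd_iff] at hA
    omega
  have hβ1 : β % 2 = 1 := by
    rw [Int.odd_iff] at hB
    omega
  have hdA : ∀ l : ℕ, l ∣ α ↔ (l : ℤ) ∣ A := by
    intro l
    rw [hα, Int.natCast_dvd]
  have hdB : ∀ l : ℕ, l ∣ β ↔ (l : ℤ) ∣ B := by
    intro l
    rw [hβ, Int.natCast_dvd]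
  have hAB' : ∀ l : ℕ, l.Prime → (l : ℤ) ∣ A → (l : ℤ) ∣ B → False := by
    intro l hl h1 h2
    have h3 := hAB.isUnit_of_dvd' h1 h2
    have h4 := Int.isUnit_iff_natAbs_eq.1 h3
    rw [Int.natAbs_natCast] at h4
    exact hl.one_lt.ne' h4
  have hprA : ∀ l : ℕ, l.Prime → l ∣ N * n → (l : ℤ) ∣ A → False := by
    intro l hl h1 h2
    have h3 : (l : ℤ) ∣ a * B ^ 2 := by
      have h4 : (l : ℤ) ∣ 2 * N * n ^ 2 := by
        have h5 : (l : ℤ) ∣ ((N * n : ℕ) : ℤ) := Int.natCast_dvd_natCast.2 h1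
        obtain ⟨c, hc'⟩ := h5
        refine ⟨2 * n * c, ?_⟩
        push_cast at hc'
        linear_combination (2 * (n : ℤ)) * hc'
      rw [← h] at h4
      have h6 : (l : ℤ) ∣ A ^ 2 := dvd_pow h2 two_ne_zero
      exact (dvd_add_right h6).1 h4
    have hlp : Prime (l : ℤ) := Nat.prime_iff_prime_int.1 hl
    rcases hlp.dvd_or_dvd h3 with h4 | h4
    · have h5 : l ∣ a := Int.natCast_dvd_natCast.1 h4
      have h6 := Nat.dvd_gcd h1 h5
      rw [Nat.Coprime.gcd_eq_one hc] at h6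
      exact hl.one_lt.ne' (Nat.dvd_one.1 h6)
    · exact hAB' l hl h2 (hlp.dvd_of_dvd_pow h4)
  have hprB : ∀ l : ℕ, l.Prime → l ∣ N * n → (l : ℤ) ∣ B → False := by
    intro l hl h1 h2
    have hlp : Prime (l : ℤ) := Nat.prime_iff_prime_int.1 hl
    have h3 : (l : ℤ) ∣ A ^ 2 := by
      have h4 : (l : ℤ) ∣ 2 * N * n ^ 2 := by
        have h5 : (l : ℤ) ∣ ((N * n : ℕ) : ℤ) := Int.natCast_dvd_natCast.2 h1
        obtain ⟨c, hc'⟩ := h5
        refine ⟨2 * n * c, ?_⟩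
        push_cast at hc'
        linear_combination (2 * (n : ℤ)) * hc'
      rw [← h] at h4
      have h6 : (l : ℤ) ∣ a * B ^ 2 := Dvd.dvd.mul_left (dvd_pow h2 two_ne_zero) _
      exact (dvd_add_left h6).1 h4
    exact hAB' l hl (hlp.dvd_of_dvd_pow h3) h2
  have gBα : Int.gcd B α = 1 := qf_gcd (fun l hl h1 h2 => hAB' l hl ((hdA l).1 h2) h1)
  have gAβ : Int.gcd A β = 1 := qf_gcd (fun l hl h1 h2 => hAB' l hl h1 ((hdB l).1 h2))
  have gnα : Int.gcd (n : ℤ) α = 1 := qf_gcd (fun l hl h1 h2 =>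
    hprA l hl (Dvd.dvd.mul_left (Int.natCast_dvd_natCast.1 h1) N) ((hdA l).1 h2))
  have gnβ : Int.gcd (n : ℤ) β = 1 := qf_gcd (fun l hl h1 h2 =>
    hprB l hl (Dvd.dvd.mul_left (Int.natCast_dvd_natCast.1 h1) N) ((hdB l).1 h2))
  have gNα : Int.gcd (N : ℤ) α = 1 := qf_gcd (fun l hl h1 h2 =>
    hprA l hl (Dvd.dvd.mul_right (Int.natCast_dvd_natCast.1 h1) n) ((hdA l).1 h2))
  have gNβ : Int.gcd (N : ℤ) β = 1 := qf_gcd (fun l hl h1 h2 =>
    hprB l hl (Dvd.dvd.mul_right (Int.natCast_dvd_natCast.1 h1) n) ((hdB l).1 h2))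
  -- step 1
  have e1 : jacobiSym A a = jacobiSym 2 α * jacobiSym N α := by
    have hao : Odd a := by rw [Nat.odd_iff]; omega
    have hneg : jacobiSym (-1) a = 1 := by
      rw [jacobiSym.at_neg_one hao]
      exact ZMod.χ₄_nat_one_mod_four (by omega)
    have h1 : jacobiSym A a = jacobiSym (α : ℤ) a := by
      rcases Int.natAbs_eq A with h1 | h1
      · rw [hα, ← h1]
      · have h2 : jacobiSym A a = jacobiSym (-1) a * jacobiSym (α : ℤ) a := by
          rw [← jacobiSym.mul_left, neg_one_mul, hα, ← h1]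
        rw [h2, hneg, one_mul]
    have hαo : Odd α := by rw [Nat.odd_iff]; exact hα1
    have h2 : jacobiSym (α : ℤ) a = jacobiSym (a : ℤ) α :=
      (jacobiSym.quadratic_reciprocity_one_mod_four (by omega) hαo).symm
    have h3 : jacobiSym ((a : ℤ) * B ^ 2) α = jacobiSym (2 * N * (n : ℤ) ^ 2) α := by
      apply jacobiSym.mod_left'
      have h4 : ((a : ℤ) * B ^ 2) ≡ 2 * N * (n : ℤ) ^ 2 [ZMOD (α : ℤ)] := by
        rw [Int.modEq_iff_dvd]
        refine ⟨α, ?_⟩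
        rw [← h, hA2]
        ring
      exact h4
    rw [jacobiSym.mul_left, jacobiSym.sq_one' gBα, mul_one, jacobiSym.mul_left,
      jacobiSym.sq_one' gnα, mul_one, jacobiSym.mul_left] at h3
    rw [h1, h2, h3]
  -- step 3
  have e3 : jacobiSym (N : ℤ) β = jacobiSym 2 β := by
    have h3 : jacobiSym (A ^ 2) β = jacobiSym (2 * N * (n : ℤ) ^ 2) β := by
      apply jacobiSym.mod_left'
      have h4 : A ^ 2 ≡ 2 * N * (n : ℤ) ^ 2 [ZMOD (β : ℤ)] := by
        rw [Int.modEq_iff_dvd]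
        refine ⟨a * β, ?_⟩
        rw [← h, hB2]
        ring
      exact h4
    rw [jacobiSym.sq_one' gAβ, jacobiSym.mul_left, jacobiSym.sq_one' gnβ, mul_one,
      jacobiSym.mul_left] at h3
    rcases jacobiSym.eq_one_or_neg_one gNβ with h4 | h4
    · rw [h4] at h3 ⊢
      linarith
    · rw [h4] at h3 ⊢
      linarith
  have hN4 : N % 4 = 3 := by omega
  have hNo : Odd N := by rw [Nat.odd_iff]; omega
  have hneg : jacobiSym (-1) N = -1 := by
    rw [jacobiSym.at_neg_one hNo]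
    exact ZMod.χ₄_nat_three_mod_four hN4
  have e2 := qf_rec hAo hN4
  have e2' := qf_rec hBo hN4
  have e4 : jacobiSym (-(A * B)) N = -(jacobiSym A N * jacobiSym B N) := by
    have h1 : -(A * B) = -1 * (A * B) := by ring
    rw [h1, jacobiSym.mul_left, hneg, jacobiSym.mul_left]
    ring
  have hNα : jacobiSym (N : ℤ) α ^ 2 = 1 := jacobiSym.sq_one gNα
  rw [e4, e2, e2', qf_sgn hAo hBo, e1, ← hα, ← hβ, e3]
  have hsA : (if A % 4 = 1 then (1 : ℤ) else -1) ^ 2 = 1 := by split_ifs <;> norm_num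
  have hsB : (if B % 4 = 1 then (1 : ℤ) else -1) ^ 2 = 1 := by split_ifs <;> norm_num
  have hfin : -(jacobiSym 2 α * jacobiSym 2 β) = (-1 : ℤ) ^ ((a - 5) / 8) := by
    have h16 : (α ^ 2 + a * β ^ 2) % 16 = 14 := by
      have h1 : α ^ 2 + a * β ^ 2 = 2 * (N * n ^ 2) := by
        have h2 : ((α ^ 2 + a * β ^ 2 : ℕ) : ℤ) = ((2 * (N * n ^ 2) : ℕ) : ℤ) := by
          push_cast
          rw [← hA2, ← hB2, h]
          ring
        exact_mod_cast h2
      have h2 : n ^ 2 % 8 = 1 := by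
        have h3 := qf_sq16 n (Nat.odd_iff.1 hn)
        omega
      have h3 : (N * n ^ 2) % 8 = 7 := by
        rw [Nat.mul_mod, hN, h2]
      omega
    have ha16 : a % 16 = 5 ∨ a % 16 = 13 := by omega
    rcases qf_two hα1 with ⟨h1, h2⟩ | ⟨h1, h2⟩ <;> rcases qf_two hβ1 with ⟨h3, h4⟩ | ⟨h3, h4⟩ <;>
      rcases ha16 with h5 | h5 <;> rw [h1, h3] <;>
      rw [Nat.add_mod, Nat.mul_mod, h2, h4, h5] at h16 <;> norm_num at h16 <;>
      first
        | (rw [Even.neg_one_pow (by rw [Nat.even_iff]; omega)]; norm_num)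
        | (rw [Odd.neg_one_pow (by rw [Nat.odd_iff]; omega)]; norm_num)
  rw [← hfin]
  linear_combination -(jacobiSym 2 α * jacobiSym 2 β) *
    ((if A % 4 = 1 then (1 : ℤ) else -1) ^ 2 * (if B % 4 = 1 then (1 : ℤ) else -1) ^ 2 * hNα +
      (if A % 4 = 1 then (1 : ℤ) else -1) ^ 2 * hsB + hsA)

theorem final_mu {p q : ℕ} [Fact p.Prime] [Fact q.Prime] (hp : p % 8 = 1) (hq : q % 8 = 5)
    {χ : MulChar (ZMod p) GaussianInt} (hχ : Quart p χ)
    {θ : MulChar (ZMod q) GaussianInt} (hθ : Quart q θ) {N n : ℕ} {A B t : ℤ} (hA : Odd A)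
    (hB : Odd B) (hAB : IsCoprime A B) (h : A ^ 2 + p * q * B ^ 2 = 2 * N * n ^ 2)
    (hN : N % 8 = 7) (hn : n % 4 = 1) (hc : Nat.Coprime (N * n) (p * q))
    (hj : jacobiSym (p * q : ℤ) n = 1) (ht : (N : ℤ) ∣ t * B + A) (hmu : mu χ θ N t = -1) :
    (-1) ^ ((A - B) / 2).natAbs * θ 2 * gI ^ ((q - 1) / 4) =
      -(χ 2 * (-1) ^ ((p - 1) / 8)) := by
  set σ : ℤ := (-1) ^ ((A - B) / 2).natAbs with hσ
  have hp2 : p % 2 = 1 := by omega
  have hpq8 : (p * q) % 8 = 5 := by rw [Nat.mul_mod, hp, hq]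
  have hpqo : Odd (p * q) := by rw [Nat.odd_iff]; omega
  have h' : A ^ 2 + ((p * q : ℕ) : ℤ) * B ^ 2 = 2 * N * (n : ℤ) ^ 2 := by
    push_cast
    exact h
  have hno : Odd n := by rw [Nat.odd_iff]; omega
  have hcore := jac_core hpq8 hA hB hAB h' hN hno hc
  rw [← hσ] at hcore
  have hNB : Int.gcd B N = 1 := by
    refine qf_gcd (fun l hl h1 h2 => ?_)
    have hlp : Prime (l : ℤ) := Nat.prime_iff_prime_int.1 hl
    have h3 : (l : ℤ) ∣ A ^ 2 := by
      have h4 : (l : ℤ) ∣ 2 * N * (n : ℤ) ^ 2 :=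
        Dvd.dvd.mul_right (Dvd.dvd.mul_left (Int.natCast_dvd_natCast.2 h2) 2) _
      rw [← h'] at h4
      have h6 : (l : ℤ) ∣ ((p * q : ℕ) : ℤ) * B ^ 2 := Dvd.dvd.mul_left (dvd_pow h1 two_ne_zero) _
      exact (dvd_add_left h6).1 h4
    have h5 := hAB.isUnit_of_dvd' (hlp.dvd_of_dvd_pow h3) h1
    have h6 := Int.isUnit_iff_natAbs_eq.1 h5
    rw [Int.natAbs_natCast] at h6
    exact hl.one_lt.ne' h6
  have hjt : jacobiSym t N = jacobiSym (-(A * B)) N := by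
    have h1 : jacobiSym (t * B ^ 2) N = jacobiSym (-(A * B)) N := by
      apply jacobiSym.mod_left'
      have h4 : t * B ^ 2 ≡ -(A * B) [ZMOD (N : ℤ)] := by
        rw [Int.modEq_iff_dvd]
        obtain ⟨k, hk⟩ := ht
        refine ⟨-(k * B), ?_⟩
        linear_combination -B * hk
      exact h4
    rwa [jacobiSym.mul_left, jacobiSym.sq_one' hNB, mul_one] at h1
  -- the characters
  have hχ1 : χ (2 : ZMod p) * χ (N : ZMod p) * (legendreSym p n : ℤ) = (legendreSym p A : ℤ) := by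
    rw [← quart_sq hχ A, ← quart_sq hχ (n : ℤ), ← map_pow, ← map_pow, ← map_mul, ← map_mul]
    congr 1
    have h1 : (((A ^ 2 + p * q * B ^ 2 : ℤ)) : ZMod p) = ((2 * N * (n : ℤ) ^ 2 : ℤ) : ZMod p) := by
      rw [h]
    push_cast at h1
    rw [ZMod.natCast_self, zero_mul, zero_mul, add_zero] at h1
    rw [h1]
    push_cast
    ring
  have hθ1 : θ (2 : ZMod q) * θ (N : ZMod q) * (legendreSym q n : ℤ) = (legendreSym q A : ℤ) := by
    rw [← quart_sq hθ A, ← quart_sq hθ (n : ℤ), ← map_pow, ← map_pow, ← map_mul, ← map_mul]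
    congr 1
    have h1 : (((A ^ 2 + p * q * B ^ 2 : ℤ)) : ZMod q) = ((2 * N * (n : ℤ) ^ 2 : ℤ) : ZMod q) := by
      rw [h]
    push_cast at h1
    rw [ZMod.natCast_self, mul_zero, zero_mul, add_zero] at h1
    rw [h1]
    push_cast
    ring
  have hp0 : p ≠ 0 := by omega
  have hq0 : q ≠ 0 := by omega
  have hJ : ∀ x : ℤ, jacobiSym x (p * q) = legendreSym p x * legendreSym q x := by
    intro x
    rw [jacobiSym.mul_right' x hp0 hq0, ← jacobiSym.legendreSym.to_jacobiSym,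
      ← jacobiSym.legendreSym.to_jacobiSym]
  have hJn : jacobiSym (n : ℤ) (p * q) = 1 := by
    rw [jacobiSym.quadratic_reciprocity_one_mod_four hn hpqo]
    push_cast
    exact hj
  have hprod : χ (2 : ZMod p) * θ (2 : ZMod q) * (χ (N : ZMod p) * θ (N : ZMod q)) =
      ((jacobiSym A (p * q) : ℤ) : GaussianInt) := by
    have h1 := hJ n
    rw [hJn] at h1
    have h2 : ((legendreSym p n : ℤ) : GaussianInt) * ((legendreSym q n : ℤ) : GaussianInt) = 1 := by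
      rw [← Int.cast_mul, ← h1, Int.cast_one]
    rw [hJ A, Int.cast_mul, ← hχ1, ← hθ1]
    linear_combination -(χ (2 : ZMod p) * θ (2 : ZMod q) * (χ (N : ZMod p) * θ (N : ZMod q))) * h2
  have hI2 := qf_gI
  have hIN : gI ^ ((N - 1) / 2) = -gI := by
    have h1 : (N - 1) / 2 = 2 * (2 * (N / 8) + 1) + 1 := by omega
    rw [h1, pow_succ, pow_mul, hI2, Odd.neg_one_pow ⟨N / 8, rfl⟩]
    ring
  have hjt2 : ((jacobiSym t N : ℤ) : GaussianInt) ^ 2 = 1 := by
    have h1 : jacobiSym t N ≠ 0 := by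
      intro h0
      unfold mu at hmu
      rw [h0] at hmu
      simp at hmu
    rcases jacobiSym.trichotomy t N with h2 | h2 | h2
    · exact absurd h2 h1
    · rw [h2]; norm_num
    · rw [h2]; norm_num
  unfold mu at hmu
  rw [hIN] at hmu
  have h2prod : χ (2 : ZMod p) * θ (2 : ZMod q) =
      ((jacobiSym A (p * q) : ℤ) : GaussianInt) * ((jacobiSym t N : ℤ) : GaussianInt) * gI := by
    rw [← hprod]
    linear_combination (χ (2 : ZMod p) * θ (2 : ZMod q)) * hmu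
  have hσ2 : (σ : GaussianInt) ^ 2 = 1 := by
    rw [hσ]
    push_cast
    rw [← pow_mul, mul_comm, pow_mul]
    norm_num
  have hcoreG : ((jacobiSym A (p * q) : ℤ) : GaussianInt) * ((jacobiSym t N : ℤ) : GaussianInt) *
      (σ : GaussianInt) = (-1) ^ ((p * q - 5) / 8) := by
    rw [hjt]
    have h1 := congrArg (Int.cast : ℤ → GaussianInt) hcore
    push_cast at h1
    exact h1
  have hχ2 : χ (2 : ZMod p) ^ 2 = 1 := by
    have h1 := quart_sq hχ 2
    have h2 : legendreSym p 2 = 1 := by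
      rw [legendreSym.at_two (by omega), ZMod.χ₈_nat_eq_if_mod_eight, if_neg (by omega),
        if_pos (by omega)]
    rw [h2] at h1
    push_cast at h1
    exact h1
  have hmain : (σ : GaussianInt) * θ (2 : ZMod q) =
      χ (2 : ZMod p) * (-1) ^ ((p * q - 5) / 8) * gI := by
    rw [← hcoreG]
    linear_combination -((σ : GaussianInt) * θ (2 : ZMod q)) * hχ2 +
      (σ : GaussianInt) * χ (2 : ZMod p) * h2prod
  obtain ⟨u, hu⟩ : ∃ u, p = 8 * u + 1 := ⟨p / 8, by omega⟩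
  obtain ⟨v, hv⟩ : ∃ v, q = 8 * v + 5 := ⟨q / 8, by omega⟩
  have hex : (p * q - 5) / 8 = 8 * u * v + 5 * u + v := by
    have h1 : p * q = 8 * (8 * u * v + 5 * u + v) + 5 := by
      rw [hu, hv]
      ring
    rw [h1]
    omega
  have hq4 : (q - 1) / 4 = 2 * v + 1 := by omega
  have hp8 : (p - 1) / 8 = u := by omega
  have hσG : ((-1 : GaussianInt)) ^ ((A - B) / 2).natAbs = (σ : GaussianInt) := by
    rw [hσ]
    push_cast
    rfl
  rw [hσG, hmain, hq4, hp8, hex]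
  have h3 : gI * gI ^ (2 * v + 1) = (-1) ^ (v + 1) := by
    rw [← pow_succ', show 2 * v + 1 + 1 = 2 * (v + 1) by ring, pow_mul, hI2]
  have h4 : ((-1 : GaussianInt)) ^ (8 * u * v + 5 * u + v) * (-1) ^ (v + 1) = -(-1) ^ u := by
    rw [← pow_add, show 8 * u * v + 5 * u + v + (v + 1) = u + 1 + 2 * (4 * u * v + 2 * u + v) by
      ring, pow_add _ (u + 1), pow_mul]
    norm_num
    ring
  linear_combination χ (2 : ZMod p) * (-1) ^ (8 * u * v + 5 * u + v) * h3 + χ (2 : ZMod p) * h4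

end Pool.Agent.Work.MP_8efaaa_nt.W5
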