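import Mathlib
import Pool.Agent.Work.MP_8efaaa_nt.W5.Q.QDefs
import Pool.Agent.Work.MP_8efaaa_nt.W5.Q.QOne

/-!
# W5/Q/QSix (S-M): the condition on `p`

PROOF. `p = 1` modulo `8`, so `(2/p) = 1` (`ZMod.exists_sq_eq_two_iff`), `χ(2) = 1` or `-1` (`quart_sq`). `2 = y^2` in `ZMod p`; `χ(2) = χ(y)^2 = (y/p)` and `(y/p) = y^((p-1)/2) = 2^((p-1)/4)` in `ZMod p`.
`(-4)^((p-1)/8) = (-1)^((p-1)/8) 4^((p-1)/8) = (-1)^((p-1)/8) 2^((p-1)/4)`. If this is `-1` in `ZMod p` (`p ≠ 2`), then the integer `(-1)^((p-1)/8) (y/p)` is `-1`.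
-/

set_option autoImplicit false

namespace Pool.Agent.Work.MP_8efaaa_nt.W5

theorem cond_p {p : ℕ} [Fact p.Prime] (hp : p % 8 = 1) {χ : MulChar (ZMod p) GaussianInt}
    (hχ : Quart p χ) (h : (-4 : ZMod p) ^ ((p - 1) / 8) = -1) :
    χ 2 * (-1) ^ ((p - 1) / 8) = -1 := by
  have hpr : p.Prime := Fact.out
  have hp2 : p ≠ 2 := by
    intro h2
    rw [h2] at hp
    omega
  obtain ⟨k, hk⟩ : ∃ k, p = 8 * k + 1 := ⟨p / 8, by omega⟩
  have hk8 : (p - 1) / 8 = k := by omega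
  have hph : p / 2 = 4 * k := by omega
  rw [hk8] at h ⊢
  obtain ⟨y, hy⟩ := (ZMod.exists_sq_eq_two_iff hp2).2 (Or.inl hp)
  have : NeZero p := ⟨hpr.ne_zero⟩
  -- `y` as an integer
  obtain ⟨n, hn⟩ : ∃ n : ℤ, (n : ZMod p) = y := ⟨(y.val : ℤ), by simp⟩
  have hchi : χ 2 = (legendreSym p n : ℤ) := by
    rw [← quart_sq hχ n, hn, hy, map_mul, sq]
  have hyne : y ≠ 0 := by
    intro h0
    rw [h0, mul_zero] at hy
    have h20 : ((2 : ℕ) : ZMod p) = 0 := by exact_mod_cast hy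
    rw [ZMod.natCast_eq_zero_iff] at h20
    exact hp2 ((Nat.prime_dvd_prime_iff_eq hpr Nat.prime_two).1 h20)
  have hleg : ((legendreSym p n : ℤ) : ZMod p) = (4 : ZMod p) ^ k := by
    rw [legendreSym.eq_pow, hn, hph]
    have : y ^ (4 * k) = ((y * y) * (y * y)) ^ k := by
      rw [pow_mul]
      congr 1
      ring
    rw [this, ← hy]
    norm_num
  have hprod : (((legendreSym p n) * (-1) ^ k : ℤ) : ZMod p) = -1 := by
    push_cast
    rw [hleg]
    rw [neg_pow (4 : ZMod p) k] at h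
    rw [mul_comm, h]
  have hn0 : (n : ZMod p) ≠ 0 := by rw [hn]; exact hyne
  have hint : legendreSym p n * (-1) ^ k = (-1 : ℤ) := by
    have h1 := legendreSym.eq_one_or_neg_one p hn0
    have h2 := neg_one_pow_eq_or ℤ k
    have h11 : ¬ ((1 : ZMod p) = -1) := by
      have : Fact (2 < p) := ⟨lt_of_le_of_ne hpr.two_le (Ne.symm hp2)⟩
      exact fun hh => ZMod.neg_one_ne_one hh.symm
    rcases h1 with h1 | h1 <;> rcases h2 with h2 | h2 <;> rw [h1, h2] at hprod ⊢ <;>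
      first
      | (exfalso; apply h11; rw [← hprod]; norm_num; done)
      | norm_num
  rw [hchi]
  have := congrArg (fun z : ℤ => (z : GaussianInt)) hint
  push_cast at this
  exact this

end Pool.Agent.Work.MP_8efaaa_nt.W5
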